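import Mathlib

/-!
# A Shannon-type counting inequality (MP_023cc8_an)

Let `A, B, C, D, U, V` be functions on a finite set `Ω`.  Suppose that every joint fibre of
`A, B, C, D` has at most `m₁` elements, every joint fibre of `U, V` has at most `m₂` elements, and
that `U` takes at most `κ` values on each joint fibre of `A, C` and on each joint fibre of `B, D`,
and `V` takes at most `κ` values on each joint fibre of `A, D` and of `B, C`.  Then
`|Ω|^3 ≤ m₁^2 m₂ κ^4 (|A(Ω)| |B(Ω)| |C(Ω)| |D(Ω)|)^2`.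
-/

namespace Pool.Agent.MP023cc8

open Finset

variable {α β γ : Type*} [DecidableEq β] [DecidableEq γ]

/-- The numerical part of the Cauchy-Schwarz chain. -/
theorem chain_ineq {N T G₁ G₂ W S₁ S₂ m : ℝ} (hN : 0 < N) (hT : 0 ≤ T) (hG₁ : 0 ≤ G₁)
    (hG₂ : 0 ≤ G₂) (hW : 0 ≤ W) (hm : 0 ≤ m) (c1 : N ^ 2 ≤ T * G₁) (c2 : G₁ ^ 2 ≤ N * G₂)
    (c3 : G₂ ^ 2 ≤ N * W) (hTS : T ^ 2 ≤ S₁ * S₂) (hWle : W ≤ m * N ^ 2) :
    N ^ 3 ≤ m * S₁ ^ 2 * S₂ ^ 2 := by
  have c4 : N ^ 8 ≤ T ^ 4 * (N ^ 3 * W) := by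
    calc N ^ 8 = (N ^ 2) ^ 4 := by ring
      _ ≤ (T * G₁) ^ 4 := pow_le_pow_left₀ (sq_nonneg _) c1 4
      _ = T ^ 4 * (G₁ ^ 2) ^ 2 := by ring
      _ ≤ T ^ 4 * (N * G₂) ^ 2 :=
          mul_le_mul_of_nonneg_left (pow_le_pow_left₀ (sq_nonneg _) c2 2) (by positivity)
      _ = T ^ 4 * N ^ 2 * G₂ ^ 2 := by ring
      _ ≤ T ^ 4 * N ^ 2 * (N * W) := mul_le_mul_of_nonneg_left c3 (by positivity)
      _ = T ^ 4 * (N ^ 3 * W) := by ring
  have c5 : N ^ 8 ≤ (m * S₁ ^ 2 * S₂ ^ 2) * N ^ 5 := by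
    calc N ^ 8 ≤ T ^ 4 * (N ^ 3 * W) := c4
      _ = (T ^ 2) ^ 2 * (N ^ 3 * W) := by ring
      _ ≤ (S₁ * S₂) ^ 2 * (N ^ 3 * (m * N ^ 2)) := by
          refine mul_le_mul (pow_le_pow_left₀ (sq_nonneg _) hTS 2) ?_ (by positivity)
            (sq_nonneg _)
          exact mul_le_mul_of_nonneg_left hWle (by positivity)
      _ = (m * S₁ ^ 2 * S₂ ^ 2) * N ^ 5 := by ring
  have c6 : N ^ 3 * N ^ 5 ≤ (m * S₁ ^ 2 * S₂ ^ 2) * N ^ 5 := by
    calc N ^ 3 * N ^ 5 = N ^ 8 := by ring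
      _ ≤ _ := c5
  exact le_of_mul_le_mul_right c6 (by positivity)

/-- The sum over the elements of `Ω` of the inverse square root of the size of the fibre. -/
theorem sum_inv_sqrt_fiber (Ω : Finset α) (U : α → γ) :
    ∑ ω ∈ Ω, 1 / Real.sqrt ((Ω.filter (fun w => U w = U ω)).card : ℝ) =
      ∑ u ∈ Ω.image U, Real.sqrt ((Ω.filter (fun w => U w = u)).card : ℝ) := by
  classical
  rw [← Finset.sum_fiberwise_of_maps_to (s := Ω) (t := Ω.image U) (g := U)
    (fun x hx => Finset.mem_image_of_mem U hx)]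
  refine Finset.sum_congr rfl fun u hu => ?_
  have h1 : ∀ ω ∈ Ω.filter (fun w => U w = u),
      1 / Real.sqrt ((Ω.filter (fun w => U w = U ω)).card : ℝ) =
        1 / Real.sqrt ((Ω.filter (fun w => U w = u)).card : ℝ) := by
    intro ω hω
    rw [(Finset.mem_filter.mp hω).2]
  rw [Finset.sum_congr rfl h1, Finset.sum_const, nsmul_eq_mul]
  have hpos : 0 < ((Ω.filter (fun w => U w = u)).card : ℝ) := by
    obtain ⟨x, hx, rfl⟩ := Finset.mem_image.mp hu
    have h2 : 0 < (Ω.filter (fun w => U w = U x)).card :=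
      Finset.card_pos.mpr ⟨x, Finset.mem_filter.mpr ⟨hx, rfl⟩⟩
    exact Nat.cast_pos.mpr h2
  have hs : 0 < Real.sqrt ((Ω.filter (fun w => U w = u)).card : ℝ) := Real.sqrt_pos.mpr hpos
  rw [mul_one_div, div_eq_iff hs.ne']
  exact (Real.mul_self_sqrt hpos.le).symm

/-- `|Ω|^3 ≤ m₂ S_U^2 S_V^2` where `S_U = ∑_u |Ω_u|^{1/2}`. -/
theorem card_cube_le (Ω : Finset α) (U V : α → γ) (m₂ : ℕ)
    (hm₂ : ∀ u v, (Ω.filter (fun w => U w = u ∧ V w = v)).card ≤ m₂) :
    (Ω.card : ℝ) ^ 3 ≤ m₂ *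
      (∑ u ∈ Ω.image U, Real.sqrt ((Ω.filter (fun w => U w = u)).card : ℝ)) ^ 2 *
      (∑ v ∈ Ω.image V, Real.sqrt ((Ω.filter (fun w => V w = v)).card : ℝ)) ^ 2 := by
  classical
  rcases Ω.eq_empty_or_nonempty with rfl | hne
  · simp
  set a : α → ℝ := fun ω => ((Ω.filter (fun w => U w = U ω)).card : ℝ) with ha
  set b : α → ℝ := fun ω => ((Ω.filter (fun w => V w = V ω)).card : ℝ) with hb
  have hapos : ∀ ω ∈ Ω, 0 < a ω := fun ω hω => by
    have : 0 < (Ω.filter (fun w => U w = U ω)).card :=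
      Finset.card_pos.mpr ⟨ω, Finset.mem_filter.mpr ⟨hω, rfl⟩⟩
    exact Nat.cast_pos.mpr this
  have hbpos : ∀ ω ∈ Ω, 0 < b ω := fun ω hω => by
    have : 0 < (Ω.filter (fun w => V w = V ω)).card :=
      Finset.card_pos.mpr ⟨ω, Finset.mem_filter.mpr ⟨hω, rfl⟩⟩
    exact Nat.cast_pos.mpr this
  set S₁ := ∑ ω ∈ Ω, 1 / Real.sqrt (a ω) with hS₁
  set S₂ := ∑ ω ∈ Ω, 1 / Real.sqrt (b ω) with hS₂
  rw [← sum_inv_sqrt_fiber Ω U, ← sum_inv_sqrt_fiber Ω V]
  change (Ω.card : ℝ) ^ 3 ≤ m₂ * S₁ ^ 2 * S₂ ^ 2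
  -- fourth roots
  set x : α → ℝ := fun ω => Real.sqrt (Real.sqrt (a ω)) with hx
  set y : α → ℝ := fun ω => Real.sqrt (Real.sqrt (b ω)) with hy
  have hxpos : ∀ ω ∈ Ω, 0 < x ω := fun ω hω =>
    Real.sqrt_pos.mpr (Real.sqrt_pos.mpr (hapos ω hω))
  have hypos : ∀ ω ∈ Ω, 0 < y ω := fun ω hω =>
    Real.sqrt_pos.mpr (Real.sqrt_pos.mpr (hbpos ω hω))
  have hx2 : ∀ ω, x ω ^ 2 = Real.sqrt (a ω) := fun ω => Real.sq_sqrt (Real.sqrt_nonneg _)
  have hy2 : ∀ ω, y ω ^ 2 = Real.sqrt (b ω) := fun ω => Real.sq_sqrt (Real.sqrt_nonneg _)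
  have hx4 : ∀ ω, x ω ^ 4 = a ω := fun ω => by
    have : x ω ^ 4 = (x ω ^ 2) ^ 2 := by ring
    rw [this, hx2, Real.sq_sqrt (Nat.cast_nonneg _)]
  have hy4 : ∀ ω, y ω ^ 4 = b ω := fun ω => by
    have : y ω ^ 4 = (y ω ^ 2) ^ 2 := by ring
    rw [this, hy2, Real.sq_sqrt (Nat.cast_nonneg _)]
  set T := ∑ ω ∈ Ω, 1 / (x ω * y ω) with hT
  set W := ∑ ω ∈ Ω, a ω * b ω with hW
  set g : α → ℝ := fun ω => x ω * y ω with hg
  have hgpos : ∀ ω ∈ Ω, 0 < g ω := fun ω hω => mul_pos (hxpos ω hω) (hypos ω hω)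
  set N : ℝ := (Ω.card : ℝ) with hN
  have hNpos : 0 < N := by
    exact Nat.cast_pos.mpr (Finset.card_pos.mpr hne)
  have hTpos : 0 < T := Finset.sum_pos (fun ω hω => one_div_pos.mpr (hgpos ω hω)) hne
  -- T ^ 2 ≤ S₁ S₂
  have hTS : T ^ 2 ≤ S₁ * S₂ := by
    have h := Finset.sum_mul_sq_le_sq_mul_sq Ω (fun ω => 1 / x ω) (fun ω => 1 / y ω)
    have e1 : ∑ ω ∈ Ω, (1 / x ω) * (1 / y ω) = T := by
      refine Finset.sum_congr rfl fun ω _ => ?_
      rw [one_div_mul_one_div]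
    have e2 : ∑ ω ∈ Ω, (1 / x ω) ^ 2 = S₁ := by
      refine Finset.sum_congr rfl fun ω _ => ?_
      rw [one_div_pow, hx2]
    have e3 : ∑ ω ∈ Ω, (1 / y ω) ^ 2 = S₂ := by
      refine Finset.sum_congr rfl fun ω _ => ?_
      rw [one_div_pow, hy2]
    rw [e1, e2, e3] at h
    exact h
  -- W ≤ m₂ N ^ 2
  have hWle : W ≤ m₂ * N ^ 2 := by
    have h1 : W = ∑ p ∈ Ω.image U ×ˢ Ω.image V,
        ((Ω.filter (fun w => U w = p.1 ∧ V w = p.2)).card : ℝ) *
          (((Ω.filter (fun w => U w = p.1)).card : ℝ) * ((Ω.filter (fun w => V w = p.2)).card : ℝ)) := by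
      rw [hW, ← Finset.sum_fiberwise_of_maps_to (s := Ω) (t := Ω.image U ×ˢ Ω.image V)
        (g := fun ω => (U ω, V ω))
        (fun ω hω => Finset.mem_product.mpr ⟨Finset.mem_image_of_mem U hω,
          Finset.mem_image_of_mem V hω⟩)]
      refine Finset.sum_congr rfl fun p _ => ?_
      have h2 : ∀ ω ∈ Ω.filter (fun w => (U w, V w) = p), a ω * b ω =
          ((Ω.filter (fun w => U w = p.1)).card : ℝ) * ((Ω.filter (fun w => V w = p.2)).card : ℝ) := by
        intro ω hω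
        have h3 := (Finset.mem_filter.mp hω).2
        have h4 : U ω = p.1 := by rw [← h3]
        have h5 : V ω = p.2 := by rw [← h3]
        simp only [ha, hb, h4, h5]
      rw [Finset.sum_congr rfl h2, Finset.sum_const, nsmul_eq_mul]
      congr 2
      · congr 1
        ext ω
        simp only [Finset.mem_filter, Prod.ext_iff]
    rw [h1]
    calc ∑ p ∈ Ω.image U ×ˢ Ω.image V,
        ((Ω.filter (fun w => U w = p.1 ∧ V w = p.2)).card : ℝ) *
          (((Ω.filter (fun w => U w = p.1)).card : ℝ) * ((Ω.filter (fun w => V w = p.2)).card : ℝ))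
        ≤ ∑ p ∈ Ω.image U ×ˢ Ω.image V, (m₂ : ℝ) *
          (((Ω.filter (fun w => U w = p.1)).card : ℝ) * ((Ω.filter (fun w => V w = p.2)).card : ℝ)) := by
          refine Finset.sum_le_sum fun p _ => ?_
          refine mul_le_mul_of_nonneg_right ?_ (by positivity)
          exact_mod_cast hm₂ p.1 p.2
      _ = m₂ * ((∑ u ∈ Ω.image U, ((Ω.filter (fun w => U w = u)).card : ℝ)) *
            (∑ v ∈ Ω.image V, ((Ω.filter (fun w => V w = v)).card : ℝ))) := by
          rw [← Finset.mul_sum, Finset.sum_product, Finset.sum_mul_sum]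
      _ = m₂ * N ^ 2 := by
          have e1 : ∑ u ∈ Ω.image U, ((Ω.filter (fun w => U w = u)).card : ℝ) = N := by
            rw [hN, Finset.card_eq_sum_card_image U Ω]
            push_cast
            rfl
          have e2 : ∑ v ∈ Ω.image V, ((Ω.filter (fun w => V w = v)).card : ℝ) = N := by
            rw [hN, Finset.card_eq_sum_card_image V Ω]
            push_cast
            rfl
          rw [e1, e2]; ring
  -- Cauchy-Schwarz chain
  set G₁ := ∑ ω ∈ Ω, g ω with hG₁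
  set G₂ := ∑ ω ∈ Ω, g ω ^ 2 with hG₂
  have c1 : N ^ 2 ≤ T * G₁ := by
    have h := Finset.sum_mul_sq_le_sq_mul_sq Ω (fun ω => 1 / Real.sqrt (g ω))
      (fun ω => Real.sqrt (g ω))
    have e1 : ∑ ω ∈ Ω, (1 / Real.sqrt (g ω)) * Real.sqrt (g ω) = N := by
      have : ∀ ω ∈ Ω, (1 / Real.sqrt (g ω)) * Real.sqrt (g ω) = 1 := fun ω hω => by
        rw [one_div_mul_cancel (Real.sqrt_pos.mpr (hgpos ω hω)).ne']
      rw [Finset.sum_congr rfl this, Finset.sum_const, nsmul_eq_mul, mul_one]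
    have e2 : ∑ ω ∈ Ω, (1 / Real.sqrt (g ω)) ^ 2 = T := by
      refine Finset.sum_congr rfl fun ω hω => ?_
      rw [one_div_pow, Real.sq_sqrt (hgpos ω hω).le]
    have e3 : ∑ ω ∈ Ω, (Real.sqrt (g ω)) ^ 2 = G₁ := by
      refine Finset.sum_congr rfl fun ω hω => ?_
      rw [Real.sq_sqrt (hgpos ω hω).le]
    rw [e1, e2, e3] at h
    exact h
  have c2 : G₁ ^ 2 ≤ N * G₂ := by
    have h := Finset.sum_mul_sq_le_sq_mul_sq Ω (fun _ => (1 : ℝ)) g
    simp only [one_mul, one_pow, Finset.sum_const, nsmul_eq_mul, mul_one] at h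
    exact h
  have c3 : G₂ ^ 2 ≤ N * W := by
    have h := Finset.sum_mul_sq_le_sq_mul_sq Ω (fun _ => (1 : ℝ)) (fun ω => g ω ^ 2)
    simp only [one_mul, one_pow, Finset.sum_const, nsmul_eq_mul, mul_one] at h
    have e : ∑ ω ∈ Ω, (g ω ^ 2) ^ 2 = W := by
      refine Finset.sum_congr rfl fun ω _ => ?_
      have : (g ω ^ 2) ^ 2 = x ω ^ 4 * y ω ^ 4 := by simp only [hg]; ring
      rw [this, hx4, hy4]
    rw [e] at h
    exact h
  have hG₁nn : 0 ≤ G₁ := Finset.sum_nonneg fun ω hω => (hgpos ω hω).le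
  have hG₂nn : 0 ≤ G₂ := Finset.sum_nonneg fun ω _ => sq_nonneg _
  have hWnn : 0 ≤ W := Finset.sum_nonneg fun ω hω => (mul_pos (hapos ω hω) (hbpos ω hω)).le
  exact chain_ineq hNpos hTpos.le hG₁nn hG₂nn hWnn (Nat.cast_nonneg _) c1 c2 c3 hTS hWle

/-- The sum over `u` of the number of values of a function `F` on the fibre `Ω_u`, if `U` takes at
most `κ` values on each fibre of `F`. -/
theorem sum_card_image_fiber_le {δ : Type*} [DecidableEq δ] (Ω : Finset α) (U : α → γ) (F : α → δ)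
    (κ : ℕ) (hκ : ∀ f, ((Ω.filter (fun w => F w = f)).image U).card ≤ κ) :
    ∑ u ∈ Ω.image U, ((Ω.filter (fun w => U w = u)).image F).card ≤ κ * (Ω.image F).card := by
  classical
  have h1 : ∑ u ∈ Ω.image U, ((Ω.filter (fun w => U w = u)).image F).card =
      (Ω.image (fun w => (U w, F w))).card := by
    rw [Finset.card_eq_sum_card_fiberwise (f := Prod.fst) (s := Ω.image (fun w => (U w, F w)))
      (t := Ω.image U)]
    · refine Finset.sum_congr rfl fun u _ => ?_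
      refine (Finset.card_bij (fun p _ => p.2) ?_ ?_ ?_).symm
      · intro p hp
        simp only [Finset.mem_filter, Finset.mem_image] at hp ⊢
        obtain ⟨⟨w, hw, rfl⟩, rfl⟩ := hp
        exact ⟨w, ⟨hw, rfl⟩, rfl⟩
      · intro p hp p' hp' h
        simp only [Finset.mem_filter] at hp hp'
        exact Prod.ext (hp.2.trans hp'.2.symm) h
      · intro f hf
        simp only [Finset.mem_image, Finset.mem_filter] at hf
        obtain ⟨w, ⟨hw, rfl⟩, rfl⟩ := hf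
        refine ⟨(U w, F w), ?_, rfl⟩
        simp only [Finset.mem_filter, Finset.mem_image]
        exact ⟨⟨w, hw, rfl⟩, trivial⟩
    · intro p hp
      simp only [Finset.coe_image, Set.mem_image, Finset.mem_coe] at hp ⊢
      obtain ⟨w, hw, rfl⟩ := hp
      exact ⟨w, hw, rfl⟩
  rw [h1]
  have h2 : (Ω.image (fun w => (U w, F w))).card ≤ κ * (Ω.image F).card := by
    refine Finset.card_le_mul_card_image_of_maps_to (f := Prod.snd) ?_ κ ?_
    · intro p hp
      simp only [Finset.mem_image] at hp ⊢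
      obtain ⟨w, hw, rfl⟩ := hp
      exact ⟨w, hw, rfl⟩
    · intro f _
      refine le_trans ?_ (hκ f)
      refine Finset.card_le_card_of_injOn Prod.fst ?_ ?_
      · intro p hp
        simp only [Finset.coe_filter, Finset.mem_image, Set.mem_ofPred_eq] at hp
        obtain ⟨⟨w, hw, rfl⟩, rfl⟩ := hp
        simp only [Finset.coe_image, Set.mem_image, Finset.coe_filter, Set.mem_ofPred_eq]
        exact ⟨w, ⟨hw, rfl⟩, rfl⟩
      · intro p hp p' hp' h
        simp only [Finset.coe_filter, Set.mem_ofPred_eq] at hp hp'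
        exact Prod.ext h (hp.2.trans hp'.2.symm)
  exact h2

/-- `S_U^2 ≤ m₁ κ^2 N_A N_B N_C N_D`, when `U` is nearly determined by `(A, C)` and by
`(B, D)`. -/
theorem sum_sqrt_sq_le {β₁ β₂ β₃ β₄ : Type*} [DecidableEq β₁] [DecidableEq β₂] [DecidableEq β₃]
    [DecidableEq β₄] (Ω : Finset α) (A : α → β₁) (B : α → β₂) (C : α → β₃) (D : α → β₄)
    (U : α → γ) (m₁ κ : ℕ)
    (hm₁ : ∀ a b c d, (Ω.filter (fun w => A w = a ∧ B w = b ∧ C w = c ∧ D w = d)).card ≤ m₁)
    (hAC : ∀ f, ((Ω.filter (fun w => (A w, C w) = f)).image U).card ≤ κ)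
    (hBD : ∀ f, ((Ω.filter (fun w => (B w, D w) = f)).image U).card ≤ κ) :
    (∑ u ∈ Ω.image U, Real.sqrt ((Ω.filter (fun w => U w = u)).card : ℝ)) ^ 2 ≤
      m₁ * κ ^ 2 * ((Ω.image A).card * (Ω.image B).card * (Ω.image C).card * (Ω.image D).card) := by
  classical
  set p : γ → ℕ := fun u => ((Ω.filter (fun w => U w = u)).image (fun w => (A w, C w))).card with hp
  set q : γ → ℕ := fun u => ((Ω.filter (fun w => U w = u)).image (fun w => (B w, D w))).card with hq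
  have h1 : ∀ u, ((Ω.filter (fun w => U w = u)).card : ℝ) ≤ m₁ * (p u * q u) := by
    intro u
    have h2 : (Ω.filter (fun w => U w = u)).card ≤
        m₁ * ((Ω.filter (fun w => U w = u)).image (fun w => ((A w, C w), (B w, D w)))).card := by
      refine Finset.card_le_mul_card_image _ m₁ ?_
      rintro ⟨⟨a, c⟩, ⟨b, d⟩⟩ _
      refine le_trans (Finset.card_le_card ?_) (hm₁ a b c d)
      intro w hw
      simp only [Finset.mem_filter, Prod.mk.injEq] at hw ⊢
      tauto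
    have h3 : ((Ω.filter (fun w => U w = u)).image (fun w => ((A w, C w), (B w, D w)))).card ≤
        p u * q u := by
      rw [hp, hq, ← Finset.card_product]
      refine Finset.card_le_card ?_
      intro z hz
      simp only [Finset.mem_image, Finset.mem_filter] at hz
      obtain ⟨w, hw, rfl⟩ := hz
      simp only [Finset.mem_product, Finset.mem_image, Finset.mem_filter]
      exact ⟨⟨w, hw, rfl⟩, ⟨w, hw, rfl⟩⟩
    exact_mod_cast h2.trans (Nat.mul_le_mul_left _ h3)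
  have h4 : ∑ u ∈ Ω.image U, Real.sqrt ((Ω.filter (fun w => U w = u)).card : ℝ) ≤
      ∑ u ∈ Ω.image U, Real.sqrt (m₁ * p u) * Real.sqrt (q u) := by
    refine Finset.sum_le_sum fun u _ => ?_
    rw [← Real.sqrt_mul (by positivity)]
    refine Real.sqrt_le_sqrt ?_
    calc ((Ω.filter (fun w => U w = u)).card : ℝ) ≤ m₁ * (p u * q u) := h1 u
      _ = m₁ * p u * q u := by ring
  have h5 : (∑ u ∈ Ω.image U, Real.sqrt (m₁ * p u) * Real.sqrt (q u)) ^ 2 ≤
      (∑ u ∈ Ω.image U, (m₁ * p u : ℝ)) * (∑ u ∈ Ω.image U, (q u : ℝ)) := by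
    have h := Finset.sum_mul_sq_le_sq_mul_sq (Ω.image U) (fun u => Real.sqrt (m₁ * p u))
      (fun u => Real.sqrt (q u))
    refine h.trans (le_of_eq ?_)
    congr 1
    · refine Finset.sum_congr rfl fun u _ => ?_
      rw [Real.sq_sqrt (by positivity)]
    · refine Finset.sum_congr rfl fun u _ => ?_
      rw [Real.sq_sqrt (by positivity)]
  have hP : (∑ u ∈ Ω.image U, (p u : ℝ)) ≤ κ * ((Ω.image A).card * (Ω.image C).card) := by
    have h := sum_card_image_fiber_le Ω U (fun w => (A w, C w)) κ hAC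
    have h' : (Ω.image (fun w => (A w, C w))).card ≤ (Ω.image A).card * (Ω.image C).card := by
      rw [← Finset.card_product]
      refine Finset.card_le_card ?_
      intro z hz
      obtain ⟨w, hw, rfl⟩ := Finset.mem_image.mp hz
      exact Finset.mem_product.mpr ⟨Finset.mem_image_of_mem _ hw, Finset.mem_image_of_mem _ hw⟩
    exact_mod_cast h.trans (Nat.mul_le_mul_left _ h')
  have hQ : (∑ u ∈ Ω.image U, (q u : ℝ)) ≤ κ * ((Ω.image B).card * (Ω.image D).card) := by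
    have h := sum_card_image_fiber_le Ω U (fun w => (B w, D w)) κ hBD
    have h' : (Ω.image (fun w => (B w, D w))).card ≤ (Ω.image B).card * (Ω.image D).card := by
      rw [← Finset.card_product]
      refine Finset.card_le_card ?_
      intro z hz
      obtain ⟨w, hw, rfl⟩ := Finset.mem_image.mp hz
      exact Finset.mem_product.mpr ⟨Finset.mem_image_of_mem _ hw, Finset.mem_image_of_mem _ hw⟩
    exact_mod_cast h.trans (Nat.mul_le_mul_left _ h')
  calc (∑ u ∈ Ω.image U, Real.sqrt ((Ω.filter (fun w => U w = u)).card : ℝ)) ^ 2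
      ≤ (∑ u ∈ Ω.image U, Real.sqrt (m₁ * p u) * Real.sqrt (q u)) ^ 2 := by
        refine pow_le_pow_left₀ (Finset.sum_nonneg fun _ _ => Real.sqrt_nonneg _) h4 2
    _ ≤ (∑ u ∈ Ω.image U, (m₁ * p u : ℝ)) * (∑ u ∈ Ω.image U, (q u : ℝ)) := h5
    _ = m₁ * ((∑ u ∈ Ω.image U, (p u : ℝ)) * (∑ u ∈ Ω.image U, (q u : ℝ))) := by
        rw [← Finset.mul_sum]; ring
    _ ≤ m₁ * ((κ * ((Ω.image A).card * (Ω.image C).card)) *
          (κ * ((Ω.image B).card * (Ω.image D).card))) := by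
        refine mul_le_mul_of_nonneg_left ?_ (Nat.cast_nonneg _)
        exact mul_le_mul hP hQ (Finset.sum_nonneg fun _ _ => Nat.cast_nonneg _) (by positivity)
    _ = _ := by ring

/-- The counting inequality. -/
theorem card_cube_le_of_pairings {β₁ β₂ β₃ β₄ : Type*} [DecidableEq β₁] [DecidableEq β₂]
    [DecidableEq β₃] [DecidableEq β₄] (Ω : Finset α) (A : α → β₁) (B : α → β₂) (C : α → β₃)
    (D : α → β₄) (U V : α → γ) (m₁ m₂ κ : ℕ)
    (hm₁ : ∀ a b c d, (Ω.filter (fun w => A w = a ∧ B w = b ∧ C w = c ∧ D w = d)).card ≤ m₁)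
    (hm₂ : ∀ u v, (Ω.filter (fun w => U w = u ∧ V w = v)).card ≤ m₂)
    (hAC : ∀ f, ((Ω.filter (fun w => (A w, C w) = f)).image U).card ≤ κ)
    (hBD : ∀ f, ((Ω.filter (fun w => (B w, D w) = f)).image U).card ≤ κ)
    (hAD : ∀ f, ((Ω.filter (fun w => (A w, D w) = f)).image V).card ≤ κ)
    (hBC : ∀ f, ((Ω.filter (fun w => (B w, C w) = f)).image V).card ≤ κ) :
    (Ω.card : ℝ) ^ 3 ≤ m₂ * m₁ ^ 2 * κ ^ 4 *
      ((Ω.image A).card * (Ω.image B).card * (Ω.image C).card * (Ω.image D).card) ^ 2 := by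
  have h0 := card_cube_le Ω U V m₂ hm₂
  have h1 := sum_sqrt_sq_le Ω A B C D U m₁ κ hm₁ hAC hBD
  have h2 := sum_sqrt_sq_le Ω A B D C V m₁ κ
    (fun a b c d => by
      refine le_trans (Finset.card_le_card ?_) (hm₁ a b d c)
      intro w hw
      simp only [Finset.mem_filter] at hw ⊢
      tauto) hAD hBC
  set X : ℝ := (Ω.image A).card * (Ω.image B).card * (Ω.image C).card * (Ω.image D).card with hX
  have hX' : ((Ω.image A).card * (Ω.image B).card * (Ω.image D).card * (Ω.image C).card : ℝ) = X := by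
    rw [hX]; ring
  rw [hX'] at h2
  refine h0.trans ?_
  refine (mul_le_mul (mul_le_mul_of_nonneg_left h1 (Nat.cast_nonneg m₂)) h2 (sq_nonneg _)
    (by positivity)).trans (le_of_eq ?_)
  ring

end Pool.Agent.MP023cc8
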