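import Pool.Agent.Lib.MP_023cc8_an.Slice

/-!
# The four side lines of a square (MP_023cc8_an)

A square with centre `(x, y)`, slope `σ` and parameter `ρ` (the half-side divided by the cosine of
the angle) has the four side lines `X = (x + σ y ± ρ) - σ Y` and `Y = (y - σ x ± ρ) + σ X`.
-/

namespace Pool.Agent.MP023cc8

open Finset

/-- The position of the `c`-th side line. -/
def lpos (c : Fin 4) (x y σ ρ : ℝ) : ℝ :=
  ![x + σ * y + ρ, x + σ * y - ρ, y - σ * x + ρ, y - σ * x - ρ] c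

/-- The slope of the `c`-th side line. -/
def lslp (c : Fin 4) (σ : ℝ) : ℝ := ![-σ, -σ, σ, σ] c

theorem abs_lslp (c : Fin 4) (σ : ℝ) : |lslp c σ| = |σ| := by
  fin_cases c <;> simp [lslp]

theorem abs_lslp_sub (c : Fin 4) (σ σ' : ℝ) : |lslp c σ - lslp c σ'| = |σ - σ'| := by
  fin_cases c
  · simp only [lslp, Fin.zero_eta, Matrix.cons_val_zero]
    rw [← abs_neg]; congr 1; ring
  · simp only [lslp, Fin.mk_one, Matrix.cons_val_one, Matrix.cons_val_zero]
    rw [← abs_neg]; congr 1; ring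
  · simp [lslp]
  · simp [lslp]

/-- If `P`, `Q` and the slope agree up to `e`, then so does the centre up to `6 e`. -/
theorem centre_close_of {x y σ x' y' σ' e : ℝ} (hσ : |σ| ≤ 1 / 4)
    (hx' : |x'| ≤ 1) (hy' : |y'| ≤ 1)
    (hP : |(x + σ * y) - (x' + σ' * y')| ≤ 2 * e) (hQ : |(y - σ * x) - (y' - σ' * x')| ≤ 2 * e)
    (hs : |σ - σ'| ≤ e) : |x - x'| ≤ 6 * e ∧ |y - y'| ≤ 6 * e := by
  have h1 : |x - x'| ≤ 3 * e + 1 / 4 * |y - y'| := by
    have e1 : x - x' = ((x + σ * y) - (x' + σ' * y')) - σ * (y - y') - (σ - σ') * y' := by ring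
    have e2 : |σ * (y - y')| ≤ 1 / 4 * |y - y'| := by
      rw [abs_mul]; exact mul_le_mul_of_nonneg_right hσ (abs_nonneg _)
    have e3 : |(σ - σ') * y'| ≤ e := by
      rw [abs_mul]
      calc |σ - σ'| * |y'| ≤ |σ - σ'| * 1 := mul_le_mul_of_nonneg_left hy' (abs_nonneg _)
        _ ≤ e := by rw [mul_one]; exact hs
    calc |x - x'| = |((x + σ * y) - (x' + σ' * y')) - σ * (y - y') - (σ - σ') * y'| := by rw [← e1]
      _ ≤ |((x + σ * y) - (x' + σ' * y')) - σ * (y - y')| + |(σ - σ') * y'| := abs_sub _ _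
      _ ≤ |(x + σ * y) - (x' + σ' * y')| + |σ * (y - y')| + |(σ - σ') * y'| := by
          gcongr; exact abs_sub _ _
      _ ≤ 3 * e + 1 / 4 * |y - y'| := by linarith
  have h2 : |y - y'| ≤ 3 * e + 1 / 4 * |x - x'| := by
    have e1 : y - y' = ((y - σ * x) - (y' - σ' * x')) + σ * (x - x') + (σ - σ') * x' := by ring
    have e2 : |σ * (x - x')| ≤ 1 / 4 * |x - x'| := by
      rw [abs_mul]; exact mul_le_mul_of_nonneg_right hσ (abs_nonneg _)
    have e3 : |(σ - σ') * x'| ≤ e := by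
      rw [abs_mul]
      calc |σ - σ'| * |x'| ≤ |σ - σ'| * 1 := mul_le_mul_of_nonneg_left hx' (abs_nonneg _)
        _ ≤ e := by rw [mul_one]; exact hs
    calc |y - y'| = |((y - σ * x) - (y' - σ' * x')) + σ * (x - x') + (σ - σ') * x'| := by rw [← e1]
      _ ≤ |((y - σ * x) - (y' - σ' * x')) + σ * (x - x')| + |(σ - σ') * x'| := abs_add_le _ _
      _ ≤ |(y - σ * x) - (y' - σ' * x')| + |σ * (x - x')| + |(σ - σ') * x'| := by
          gcongr; exact abs_add_le _ _
      _ ≤ 3 * e + 1 / 4 * |x - x'| := by linarith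
  constructor <;> linarith [abs_nonneg (x - x'), abs_nonneg (y - y')]

/-- Three of the four lines determine the centre. -/
theorem centre_close_of_three {x y σ ρ x' y' σ' ρ' e : ℝ} (c₀ : Fin 4) (hσ : |σ| ≤ 1 / 4)
    (hx' : |x'| ≤ 1) (hy' : |y'| ≤ 1)
    (h : ∀ c, c ≠ c₀ → |lpos c x y σ ρ - lpos c x' y' σ' ρ'| ≤ e)
    (hs : |σ - σ'| ≤ e) : |x - x'| ≤ 6 * e ∧ |y - y'| ≤ 6 * e := by
  have h0 : c₀ ≠ 0 → |(x + σ * y + ρ) - (x' + σ' * y' + ρ')| ≤ e := fun hc => h 0 hc.symm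
  have h1 : c₀ ≠ 1 → |(x + σ * y - ρ) - (x' + σ' * y' - ρ')| ≤ e := fun hc => h 1 hc.symm
  have h2 : c₀ ≠ 2 → |(y - σ * x + ρ) - (y' - σ' * x' + ρ')| ≤ e := fun hc => h 2 hc.symm
  have h3 : c₀ ≠ 3 → |(y - σ * x - ρ) - (y' - σ' * x' - ρ')| ≤ e := fun hc => h 3 hc.symm
  simp only [abs_le] at h0 h1 h2 h3
  have hc : c₀ = 0 ∨ c₀ = 1 ∨ c₀ = 2 ∨ c₀ = 3 := by
    fin_cases c₀ <;> simp
  refine centre_close_of hσ hx' hy' ?_ ?_ hs
  · rw [abs_le]
    rcases hc with rfl | rfl | rfl | rfl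
    · have a1 := h1 (by decide); have a2 := h2 (by decide); have a3 := h3 (by decide)
      constructor <;> linarith [a1.1, a1.2, a2.1, a2.2, a3.1, a3.2]
    · have a1 := h0 (by decide); have a2 := h2 (by decide); have a3 := h3 (by decide)
      constructor <;> linarith [a1.1, a1.2, a2.1, a2.2, a3.1, a3.2]
    · have a1 := h0 (by decide); have a2 := h1 (by decide); have a3 := h3 (by decide)
      constructor <;> linarith [a1.1, a1.2, a2.1, a2.2, a3.1, a3.2]
    · have a1 := h0 (by decide); have a2 := h1 (by decide); have a3 := h2 (by decide)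
      constructor <;> linarith [a1.1, a1.2, a2.1, a2.2, a3.1, a3.2]
  · rw [abs_le]
    rcases hc with rfl | rfl | rfl | rfl
    · have a1 := h1 (by decide); have a2 := h2 (by decide); have a3 := h3 (by decide)
      constructor <;> linarith [a1.1, a1.2, a2.1, a2.2, a3.1, a3.2]
    · have a1 := h0 (by decide); have a2 := h2 (by decide); have a3 := h3 (by decide)
      constructor <;> linarith [a1.1, a1.2, a2.1, a2.2, a3.1, a3.2]
    · have a1 := h0 (by decide); have a2 := h1 (by decide); have a3 := h3 (by decide)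
      constructor <;> linarith [a1.1, a1.2, a2.1, a2.2, a3.1, a3.2]
    · have a1 := h0 (by decide); have a2 := h1 (by decide); have a3 := h2 (by decide)
      constructor <;> linarith [a1.1, a1.2, a2.1, a2.2, a3.1, a3.2]

/-- Auxiliary estimate for two lines. -/
theorem abs_le_of_form {u v w s e : ℝ} (hs : 3 / 4 ≤ s) (h : |s * u + v + w| ≤ 2 * e)
    (hv : |v| ≤ e) (hw : |w| ≤ e) : |u| ≤ 6 * e := by
  rw [abs_le] at h hv hw ⊢
  constructor <;> nlinarith [h.1, h.2, hv.1, hv.2, hw.1, hw.2]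

/-- Two lines that are not both of the second kind and the ordinate determine the abscissa. -/
theorem abscissa_close {x y σ ρ x' σ' ρ' e : ℝ} (c c' : Fin 4) (hcc : c ≠ c')
    (hne : ¬ (2 ≤ c ∧ 2 ≤ c')) (hσ : |σ| ≤ 1 / 4) (hx' : |x'| ≤ 1) (hy : |y| ≤ 1)
    (h : |lpos c x y σ ρ - lpos c x' y σ' ρ'| ≤ e)
    (h' : |lpos c' x y σ ρ - lpos c' x' y σ' ρ'| ≤ e)
    (hs : |σ - σ'| ≤ e) : |x - x'| ≤ 6 * e := by
  have he : 0 ≤ e := (abs_nonneg _).trans hs
  have k1 : |(σ - σ') * y| ≤ e := by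
    rw [abs_mul]
    calc |σ - σ'| * |y| ≤ |σ - σ'| * 1 := mul_le_mul_of_nonneg_left hy (abs_nonneg _)
      _ ≤ e := by rw [mul_one]; exact hs
  have k2 : |(σ - σ') * x'| ≤ e := by
    rw [abs_mul]
    calc |σ - σ'| * |x'| ≤ |σ - σ'| * 1 := mul_le_mul_of_nonneg_left hx' (abs_nonneg _)
      _ ≤ e := by rw [mul_one]; exact hs
  have hσ' := abs_le.mp hσ
  -- the three linear forms
  have key01 : |(x + σ * y + ρ) - (x' + σ' * y + ρ')| ≤ e →
      |(x + σ * y - ρ) - (x' + σ' * y - ρ')| ≤ e → |x - x'| ≤ 6 * e := by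
    intro a b
    rw [abs_le] at a b k1 ⊢
    constructor <;> nlinarith [a.1, a.2, b.1, b.2, k1.1, k1.2]
  have keyA : |(x + σ * y) - (y - σ * x) - ((x' + σ' * y) - (y - σ' * x'))| ≤ 2 * e →
      |x - x'| ≤ 6 * e := by
    intro a
    refine abs_le_of_form (s := 1 + σ) (v := (σ - σ') * x') (w := (σ - σ') * y)
      (by linarith [hσ'.1]) ?_ k2 k1
    have : (1 + σ) * (x - x') + (σ - σ') * x' + (σ - σ') * y =
      (x + σ * y) - (y - σ * x) - ((x' + σ' * y) - (y - σ' * x')) := by ring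
    rw [this]; exact a
  have keyB : |(x + σ * y) + (y - σ * x) - ((x' + σ' * y) + (y - σ' * x'))| ≤ 2 * e →
      |x - x'| ≤ 6 * e := by
    intro a
    refine abs_le_of_form (s := 1 - σ) (v := -((σ - σ') * x')) (w := (σ - σ') * y)
      (by linarith [hσ'.2]) ?_ (by rwa [abs_neg]) k1
    have : (1 - σ) * (x - x') + -((σ - σ') * x') + (σ - σ') * y =
      (x + σ * y) + (y - σ * x) - ((x' + σ' * y) + (y - σ' * x')) := by ring
    rw [this]; exact a
  have c02 : |(x + σ * y + ρ) - (x' + σ' * y + ρ')| ≤ e →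
      |(y - σ * x + ρ) - (y - σ' * x' + ρ')| ≤ e → |x - x'| ≤ 6 * e := by
    intro a b
    refine keyA ?_
    rw [abs_le] at a b ⊢
    constructor <;> linarith [a.1, a.2, b.1, b.2]
  have c13 : |(x + σ * y - ρ) - (x' + σ' * y - ρ')| ≤ e →
      |(y - σ * x - ρ) - (y - σ' * x' - ρ')| ≤ e → |x - x'| ≤ 6 * e := by
    intro a b
    refine keyA ?_
    rw [abs_le] at a b ⊢
    constructor <;> linarith [a.1, a.2, b.1, b.2]
  have c03 : |(x + σ * y + ρ) - (x' + σ' * y + ρ')| ≤ e →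
      |(y - σ * x - ρ) - (y - σ' * x' - ρ')| ≤ e → |x - x'| ≤ 6 * e := by
    intro a b
    refine keyB ?_
    rw [abs_le] at a b ⊢
    constructor <;> linarith [a.1, a.2, b.1, b.2]
  have c12 : |(x + σ * y - ρ) - (x' + σ' * y - ρ')| ≤ e →
      |(y - σ * x + ρ) - (y - σ' * x' + ρ')| ≤ e → |x - x'| ≤ 6 * e := by
    intro a b
    refine keyB ?_
    rw [abs_le] at a b ⊢
    constructor <;> linarith [a.1, a.2, b.1, b.2]
  have hc : c = 0 ∨ c = 1 ∨ c = 2 ∨ c = 3 := by fin_cases c <;> simp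
  have hc' : c' = 0 ∨ c' = 1 ∨ c' = 2 ∨ c' = 3 := by fin_cases c' <;> simp
  rcases hc with rfl | rfl | rfl | rfl <;> rcases hc' with rfl | rfl | rfl | rfl
  · exact absurd rfl hcc
  · exact key01 h h'
  · exact c02 h h'
  · exact c03 h h'
  · exact key01 h' h
  · exact absurd rfl hcc
  · exact c12 h h'
  · exact c13 h h'
  · exact c02 h' h
  · exact c12 h' h
  · exact absurd rfl hcc
  · exact absurd ⟨by decide, by decide⟩ hne
  · exact c03 h' h
  · exact c13 h' h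
  · exact absurd ⟨by decide, by decide⟩ hne
  · exact absurd rfl hcc

/-- The two lines of the second kind and the abscissa determine the ordinate. -/
theorem ordinate_close {x y σ ρ y' σ' ρ' e : ℝ} (c c' : Fin 4) (hcc : c ≠ c')
    (hne : 2 ≤ c ∧ 2 ≤ c') (hx : |x| ≤ 1)
    (h : |lpos c x y σ ρ - lpos c x y' σ' ρ'| ≤ e)
    (h' : |lpos c' x y σ ρ - lpos c' x y' σ' ρ'| ≤ e)
    (hs : |σ - σ'| ≤ e) : |y - y'| ≤ 6 * e := by
  have he : 0 ≤ e := (abs_nonneg _).trans hs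
  have k1 : |(σ - σ') * x| ≤ e := by
    rw [abs_mul]
    calc |σ - σ'| * |x| ≤ |σ - σ'| * 1 := mul_le_mul_of_nonneg_left hx (abs_nonneg _)
      _ ≤ e := by rw [mul_one]; exact hs
  have key : |(y - σ * x + ρ) - (y' - σ' * x + ρ')| ≤ e →
      |(y - σ * x - ρ) - (y' - σ' * x - ρ')| ≤ e → |y - y'| ≤ 6 * e := by
    intro a b
    rw [abs_le] at a b k1 ⊢
    constructor <;> nlinarith [a.1, a.2, b.1, b.2, k1.1, k1.2]
  have hc : c = 0 ∨ c = 1 ∨ c = 2 ∨ c = 3 := by fin_cases c <;> simp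
  have hc' : c' = 0 ∨ c' = 1 ∨ c' = 2 ∨ c' = 3 := by fin_cases c' <;> simp
  rcases hc with rfl | rfl | rfl | rfl <;> rcases hc' with rfl | rfl | rfl | rfl <;>
    first
    | exact absurd rfl hcc
    | exact absurd hne (by decide)
    | exact key h h'
    | exact key h' h

end Pool.Agent.MP023cc8
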