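import Pool.Agent.Lib.MP_023cc8_an.Comb
import Pool.Agent.Lib.MP_023cc8_an.Lines

/-!
# The discrete core estimate (MP_023cc8_an)
-/

namespace Pool.Agent.MP023cc8

open Finset

/-- The grid of centres. -/
def grid (L : ℕ) : Finset (ℕ × ℕ) := Finset.range L ×ˢ Finset.range L

/-- Abscissa of a grid point. -/
noncomputable def gx (n : ℕ) (ω : ℕ × ℕ) : ℝ := (ω.1 : ℝ) / 2 ^ n

/-- Ordinate of a grid point. -/
noncomputable def gy (n : ℕ) (ω : ℕ × ℕ) : ℝ := (ω.2 : ℝ) / 2 ^ n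

theorem abs_gx_le {n L : ℕ} (hL : L ≤ 2 ^ n) {ω : ℕ × ℕ} (hω : ω ∈ grid L) : |gx n ω| ≤ 1 := by
  have h1 : ω.1 < L := Finset.mem_range.mp (Finset.mem_product.mp hω).1
  unfold gx
  rw [abs_of_nonneg (by positivity), div_le_one (by positivity)]
  exact_mod_cast (h1.trans_le hL).le

theorem abs_gy_le {n L : ℕ} (hL : L ≤ 2 ^ n) {ω : ℕ × ℕ} (hω : ω ∈ grid L) : |gy n ω| ≤ 1 := by
  have h1 : ω.2 < L := Finset.mem_range.mp (Finset.mem_product.mp hω).2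
  unfold gy
  rw [abs_of_nonneg (by positivity), div_le_one (by positivity)]
  exact_mod_cast (h1.trans_le hL).le

/-- Position and slope of the `c`-th side line of the square centred at a grid point. -/
noncomputable def pos (n : ℕ) (σ ρ : ℕ × ℕ → ℝ) (c : Fin 4) (ω : ℕ × ℕ) : ℝ :=
  lpos c (gx n ω) (gy n ω) (σ ω) (ρ ω)

/-- Slope of the `c`-th side line. -/
def slp (σ : ℕ × ℕ → ℝ) (c : Fin 4) (ω : ℕ × ℕ) : ℝ := lslp c (σ ω)

/-- From `2^i |u| ≤ R` with `u = (k - l)/2^n` and `i ≤ n` we get `k ≤ l + R 2^(n-i)`. -/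
theorem nat_close {n i R k l : ℕ} (hi : i ≤ n)
    (h : |(k : ℝ) / 2 ^ n - (l : ℝ) / 2 ^ n| ≤ R * (1 / 2 ^ i)) : k ≤ l + R * 2 ^ (n - i) := by
  have h1 : (k : ℝ) / 2 ^ n - (l : ℝ) / 2 ^ n ≤ R * (1 / 2 ^ i) := (le_abs_self _).trans h
  have h2 : (2 : ℝ) ^ n = 2 ^ i * 2 ^ (n - i) := by rw [← pow_add]; congr 1; omega
  have h3 : (0 : ℝ) < 2 ^ n := by positivity
  have h4 : (0 : ℝ) < 2 ^ i := by positivity
  rw [← sub_div, div_le_iff₀ h3] at h1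
  have h5 : (R : ℝ) * (1 / 2 ^ i) * 2 ^ n = R * 2 ^ (n - i) := by
    rw [h2]; field_simp
  rw [h5] at h1
  have h6 : (k : ℝ) ≤ ((l + R * 2 ^ (n - i) : ℕ) : ℝ) := by push_cast; linarith
  exact_mod_cast h6

/-- A set of grid points with controlled ordinates and controlled horizontal slices. -/
theorem card_le_of_slices (F : Finset (ℕ × ℕ)) (R₂ R₃ : ℕ)
    (h₂ : ∀ ω ∈ F, ∀ ω' ∈ F, ω.2 ≤ ω'.2 + R₂)
    (h₃ : ∀ ω ∈ F, ∀ ω' ∈ F, ω.2 = ω'.2 → ω.1 ≤ ω'.1 + R₃) :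
    F.card ≤ (R₃ + 1) * (R₂ + 1) := by
  have h1 : F.card ≤ (R₃ + 1) * (F.image Prod.snd).card := by
    refine Finset.card_le_mul_card_image F (R₃ + 1) ?_
    intro y _
    have e1 : (F.filter (fun ω => ω.2 = y)).card =
        ((F.filter (fun ω => ω.2 = y)).image Prod.fst).card := by
      rw [Finset.card_image_of_injOn]
      intro p hp q hq hpq
      simp only [Finset.coe_filter, Set.mem_ofPred_eq] at hp hq
      exact Prod.ext hpq (hp.2.trans hq.2.symm)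
    rw [e1]
    refine card_le_of_close_nat _ R₃ ?_
    intro a ha b hb
    simp only [Finset.mem_image, Finset.mem_filter] at ha hb
    obtain ⟨p, ⟨hp, hp2⟩, rfl⟩ := ha
    obtain ⟨q, ⟨hq, hq2⟩, rfl⟩ := hb
    exact h₃ p hp q hq (hp2.trans hq2.symm)
  refine h1.trans (Nat.mul_le_mul_left _ ?_)
  refine card_le_of_close_nat _ R₂ ?_
  intro a ha b hb
  simp only [Finset.mem_image] at ha hb
  obtain ⟨p, hp, rfl⟩ := ha
  obtain ⟨q, hq, rfl⟩ := hb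
  exact h₂ p hp q hq

/-- The same with the roles of the coordinates exchanged. -/
theorem card_le_of_slices' (F : Finset (ℕ × ℕ)) (R₂ R₃ : ℕ)
    (h₂ : ∀ ω ∈ F, ∀ ω' ∈ F, ω.1 ≤ ω'.1 + R₂)
    (h₃ : ∀ ω ∈ F, ∀ ω' ∈ F, ω.1 = ω'.1 → ω.2 ≤ ω'.2 + R₃) :
    F.card ≤ (R₃ + 1) * (R₂ + 1) := by
  have h := card_le_of_slices (F.image Prod.swap) R₂ R₃ ?_ ?_
  · rwa [Finset.card_image_of_injective _ Prod.swap_injective] at h
  · intro ω hω ω' hω'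
    obtain ⟨p, hp, rfl⟩ := Finset.mem_image.mp hω
    obtain ⟨q, hq, rfl⟩ := Finset.mem_image.mp hω'
    exact h₂ p hp q hq
  · intro ω hω ω' hω' he
    obtain ⟨p, hp, rfl⟩ := Finset.mem_image.mp hω
    obtain ⟨q, hq, rfl⟩ := Finset.mem_image.mp hω'
    exact h₃ p hp q hq he

/-- If two real numbers lie in the same cell at scale `2^{-i}` and `i' ≤ i` then they are
`2^{-i'}`-close. -/
theorem close_of_floor {u v : ℝ} {i i' : ℕ} (hi : i' ≤ i) (h : ⌊2 ^ i * u⌋ = ⌊2 ^ i * v⌋) :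
    |u - v| ≤ 1 / 2 ^ i' := by
  have h1 := abs_sub_lt_one_of_floor_eq h
  rw [← mul_sub, abs_mul, abs_of_pos (by positivity : (0 : ℝ) < 2 ^ i)] at h1
  rw [le_div_iff₀ (by positivity)]
  have h2 : (2 : ℝ) ^ i' ≤ 2 ^ i := pow_le_pow_right₀ (by norm_num) hi
  nlinarith [abs_nonneg (u - v)]

/-- A finite subset of `ℤ × ℤ` with coordinates pairwise at distance at most `2` has at most `9`
elements. -/
theorem card_le_nine (S : Finset (ℤ × ℤ)) (h : ∀ p ∈ S, ∀ q ∈ S, p.1 - q.1 ≤ 2 ∧ p.2 - q.2 ≤ 2) :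
    S.card ≤ 9 := by
  have h1 : S.card ≤ ((S.image Prod.fst) ×ˢ (S.image Prod.snd)).card := by
    refine Finset.card_le_card ?_
    intro p hp
    exact Finset.mem_product.mpr ⟨Finset.mem_image_of_mem _ hp, Finset.mem_image_of_mem _ hp⟩
  rw [Finset.card_product] at h1
  have h2 : (S.image Prod.fst).card ≤ 2 + 1 := by
    refine card_le_of_close _ 2 ?_
    intro a ha b hb
    obtain ⟨p, hp, rfl⟩ := Finset.mem_image.mp ha
    obtain ⟨q, hq, rfl⟩ := Finset.mem_image.mp hb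
    exact (h p hp q hq).1
  have h3 : (S.image Prod.snd).card ≤ 2 + 1 := by
    refine card_le_of_close _ 2 ?_
    intro a ha b hb
    obtain ⟨p, hp, rfl⟩ := Finset.mem_image.mp ha
    obtain ⟨q, hq, rfl⟩ := Finset.mem_image.mp hb
    exact (h p hp q hq).2
  calc S.card ≤ _ := h1
    _ ≤ 3 * 3 := Nat.mul_le_mul h2 h3
    _ = 9 := rfl

/-- The size of a joint fibre of the four cell maps. -/
theorem fibre_four {n L : ℕ} (hL : L ≤ 2 ^ n) (σ ρ : ℕ × ℕ → ℝ)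
    (hσ : ∀ ω ∈ grid L, |σ ω| ≤ 1 / 4) (s : Fin 4 → ℕ) (hs : ∀ c, s c ≤ n)
    (τ : Equiv.Perm (Fin 4)) (h12 : s (τ 1) ≤ s (τ 2)) (h23 : s (τ 2) ≤ s (τ 3))
    (F : Finset (ℕ × ℕ)) (hF : F ⊆ grid L)
    (hcell : ∀ c, ∀ ω ∈ F, ∀ ω' ∈ F,
      cell (pos n σ ρ c) (slp σ c) (s c) ω = cell (pos n σ ρ c) (slp σ c) (s c) ω') :
    F.card ≤ 49 * 2 ^ ((n - s (τ 1)) + (n - s (τ 2))) := by
  have hclose : ∀ c, ∀ i ≤ s c, ∀ ω ∈ F, ∀ ω' ∈ F,
      |pos n σ ρ c ω - pos n σ ρ c ω'| ≤ 1 / 2 ^ i ∧ |σ ω - σ ω'| ≤ 1 / 2 ^ i := by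
    intro c i hi ω hω ω' hω'
    have h := hcell c ω hω ω' hω'
    refine ⟨close_of_floor hi (congrArg Prod.fst h), ?_⟩
    have h' := close_of_floor hi (congrArg Prod.snd h)
    rw [← abs_lslp_sub c]
    exact h'
  -- three lines at scale `s (τ 1)`
  have h6 : ∀ ω ∈ F, ∀ ω' ∈ F, ω.1 ≤ ω'.1 + 6 * 2 ^ (n - s (τ 1)) ∧
      ω.2 ≤ ω'.2 + 6 * 2 ^ (n - s (τ 1)) := by
    intro ω hω ω' hω'
    have h := centre_close_of_three (x := gx n ω) (y := gy n ω) (σ := σ ω) (ρ := ρ ω)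
      (x' := gx n ω') (y' := gy n ω') (σ' := σ ω') (ρ' := ρ ω') (e := 1 / 2 ^ (s (τ 1)))
      (τ 0) (hσ ω (hF hω)) (abs_gx_le hL (hF hω')) (abs_gy_le hL (hF hω')) ?_ ?_
    · constructor
      · refine nat_close (R := 6) (hs _) ?_
        push_cast
        exact h.1
      · refine nat_close (R := 6) (hs _) ?_
        push_cast
        exact h.2
    · intro c hc
      obtain ⟨k, rfl⟩ := τ.surjective c
      have hk : k ≠ 0 := fun hk => hc (by rw [hk])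
      have hle : s (τ 1) ≤ s (τ k) := by
        have : k = 0 ∨ k = 1 ∨ k = 2 ∨ k = 3 := by fin_cases k <;> simp
        rcases this with rfl | rfl | rfl | rfl
        · exact absurd rfl hk
        · exact le_rfl
        · exact h12
        · exact h12.trans h23
      exact (hclose (τ k) _ hle ω hω ω' hω').1
    · exact (hclose (τ 1) _ le_rfl ω hω ω' hω').2
  have hpow1 : 1 ≤ 2 ^ (n - s (τ 1)) := Nat.one_le_two_pow
  have hpow2 : 1 ≤ 2 ^ (n - s (τ 2)) := Nat.one_le_two_pow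
  have hfinal : (6 * 2 ^ (n - s (τ 2)) + 1) * (6 * 2 ^ (n - s (τ 1)) + 1) ≤
      49 * 2 ^ ((n - s (τ 1)) + (n - s (τ 2))) := by
    rw [pow_add]
    calc (6 * 2 ^ (n - s (τ 2)) + 1) * (6 * 2 ^ (n - s (τ 1)) + 1)
        ≤ (7 * 2 ^ (n - s (τ 2))) * (7 * 2 ^ (n - s (τ 1))) :=
          Nat.mul_le_mul (by omega) (by omega)
      _ = _ := by ring
  refine le_trans ?_ hfinal
  have hne : τ 2 ≠ τ 3 := fun h => absurd (τ.injective h) (by decide)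
  by_cases hb : 2 ≤ τ 2 ∧ 2 ≤ τ 3
  · refine card_le_of_slices' F _ _ (fun ω hω ω' hω' => (h6 ω hω ω' hω').1) ?_
    intro ω hω ω' hω' heq
    refine nat_close (R := 6) (hs _) ?_
    push_cast
    have hx : gx n ω' = gx n ω := by unfold gx; rw [heq]
    have e1 := (hclose (τ 2) _ le_rfl ω hω ω' hω').1
    have e2 := (hclose (τ 3) _ h23 ω hω ω' hω').1
    unfold pos at e1 e2
    rw [hx] at e1 e2
    exact ordinate_close (τ 2) (τ 3) hne hb (abs_gx_le hL (hF hω)) e1 e2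
      (hclose (τ 2) _ le_rfl ω hω ω' hω').2
  · refine card_le_of_slices F _ _ (fun ω hω ω' hω' => (h6 ω hω ω' hω').2) ?_
    intro ω hω ω' hω' heq
    refine nat_close (R := 6) (hs _) ?_
    push_cast
    have hy : gy n ω' = gy n ω := by unfold gy; rw [heq]
    have e1 := (hclose (τ 2) _ le_rfl ω hω ω' hω').1
    have e2 := (hclose (τ 3) _ h23 ω hω ω' hω').1
    unfold pos at e1 e2
    rw [hy] at e1 e2
    exact abscissa_close (τ 2) (τ 3) hne hb (hσ ω (hF hω)) (abs_gx_le hL (hF hω'))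
      (abs_gy_le hL (hF hω)) e1 e2 (hclose (τ 2) _ le_rfl ω hω ω' hω').2

/-- The pair of cells of two real functions at scale `2^{-i}`. -/
noncomputable def cell2 {α : Type*} (g σ : α → ℝ) (i : ℕ) (ω : α) : ℤ × ℤ :=
  (⌊2 ^ i * g ω⌋, ⌊2 ^ i * σ ω⌋)

theorem card_image_cell2_le {α : Type*} (F : Finset α) (g σ : α → ℝ) (i : ℕ)
    (h : ∀ ω ∈ F, ∀ ω' ∈ F, |g ω - g ω'| ≤ 2 * (1 / 2 ^ i) ∧ |σ ω - σ ω'| ≤ 2 * (1 / 2 ^ i)) :
    (F.image (cell2 g σ i)).card ≤ 9 := by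
  have hp : (0 : ℝ) < 2 ^ i := by positivity
  have aux : ∀ u v : ℝ, |u - v| ≤ 2 * (1 / 2 ^ i) → ⌊2 ^ i * u⌋ - ⌊2 ^ i * v⌋ ≤ 2 := by
    intro u v huv
    apply floor_sub_le
    have h1 : u - v ≤ 2 * (1 / 2 ^ i) := (le_abs_self _).trans huv
    have h2 : 2 ^ i * (u - v) ≤ 2 ^ i * (2 * (1 / 2 ^ i)) := mul_le_mul_of_nonneg_left h1 hp.le
    have h3 : (2 : ℝ) ^ i * (2 * (1 / 2 ^ i)) = 2 := by field_simp
    push_cast
    linarith
  refine card_le_nine _ ?_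
  intro p hp q hq
  obtain ⟨w, hw, rfl⟩ := Finset.mem_image.mp hp
  obtain ⟨w', hw', rfl⟩ := Finset.mem_image.mp hq
  exact ⟨aux _ _ (h w hw w' hw').1, aux _ _ (h w hw w' hw').2⟩

/-- The difference `P - Q`. -/
noncomputable def fU (n : ℕ) (σ : ℕ × ℕ → ℝ) (ω : ℕ × ℕ) : ℝ :=
  (gx n ω + σ ω * gy n ω) - (gy n ω - σ ω * gx n ω)

/-- The sum `P + Q`. -/
noncomputable def fV (n : ℕ) (σ : ℕ × ℕ → ℝ) (ω : ℕ × ℕ) : ℝ :=
  (gx n ω + σ ω * gy n ω) + (gy n ω - σ ω * gx n ω)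

/-- The size of a joint fibre of the two diagonal maps. -/
theorem fibre_two {n L : ℕ} (hL : L ≤ 2 ^ n) (σ : ℕ × ℕ → ℝ)
    (hσ : ∀ ω ∈ grid L, |σ ω| ≤ 1 / 4) (i : ℕ) (hi : i ≤ n)
    (F : Finset (ℕ × ℕ)) (hF : F ⊆ grid L)
    (hU : ∀ ω ∈ F, ∀ ω' ∈ F, cell2 (fU n σ) σ i ω = cell2 (fU n σ) σ i ω')
    (hV : ∀ ω ∈ F, ∀ ω' ∈ F, cell2 (fV n σ) σ i ω = cell2 (fV n σ) σ i ω') :
    F.card ≤ 49 * 2 ^ (2 * (n - i)) := by
  have h6 : ∀ ω ∈ F, ∀ ω' ∈ F, ω.1 ≤ ω'.1 + 6 * 2 ^ (n - i) ∧ ω.2 ≤ ω'.2 + 6 * 2 ^ (n - i) := by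
    intro ω hω ω' hω'
    have a1 : |fU n σ ω - fU n σ ω'| ≤ 1 / 2 ^ i :=
      close_of_floor le_rfl (congrArg Prod.fst (hU ω hω ω' hω'))
    have a2 : |fV n σ ω - fV n σ ω'| ≤ 1 / 2 ^ i :=
      close_of_floor le_rfl (congrArg Prod.fst (hV ω hω ω' hω'))
    have a3 : |σ ω - σ ω'| ≤ 1 / 2 ^ i :=
      close_of_floor le_rfl (congrArg Prod.snd (hU ω hω ω' hω'))
    unfold fU at a1
    unfold fV at a2
    have h := centre_close_of (x := gx n ω) (y := gy n ω) (σ := σ ω)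
      (x' := gx n ω') (y' := gy n ω') (σ' := σ ω') (e := 1 / 2 ^ i)
      (hσ ω (hF hω)) (abs_gx_le hL (hF hω')) (abs_gy_le hL (hF hω')) ?_ ?_ a3
    · constructor
      · refine nat_close (R := 6) hi ?_
        push_cast
        exact h.1
      · refine nat_close (R := 6) hi ?_
        push_cast
        exact h.2
    · rw [abs_le] at a1 a2 ⊢
      constructor <;> linarith [a1.1, a1.2, a2.1, a2.2]
    · rw [abs_le] at a1 a2 ⊢
      constructor <;> linarith [a1.1, a1.2, a2.1, a2.2]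
  have hpow : 1 ≤ 2 ^ (n - i) := Nat.one_le_two_pow
  calc F.card ≤ (6 * 2 ^ (n - i) + 1) * (6 * 2 ^ (n - i) + 1) :=
        card_le_of_slices F _ _ (fun ω hω ω' hω' => (h6 ω hω ω' hω').2)
          (fun ω hω ω' hω' _ => (h6 ω hω ω' hω').1)
    _ ≤ (7 * 2 ^ (n - i)) * (7 * 2 ^ (n - i)) := Nat.mul_le_mul (by omega) (by omega)
    _ = 49 * 2 ^ (2 * (n - i)) := by rw [two_mul, pow_add]; ring

/-- The counting inequality for the four cell maps. -/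
theorem cube_le {n L : ℕ} (hL : L ≤ 2 ^ n) (σ ρ : ℕ × ℕ → ℝ)
    (hσ : ∀ ω ∈ grid L, |σ ω| ≤ 1 / 4) (s : Fin 4 → ℕ) (hs : ∀ c, s c ≤ n)
    (Ω : Finset (ℕ × ℕ)) (hΩ : Ω ⊆ grid L) :
    ∃ i₃ ≤ n, (Ω.card : ℝ) ^ 3 * 2 ^ (2 * (∑ c, s c)) ≤
      49 ^ 3 * 9 ^ 4 * 2 ^ (6 * n + 2 * i₃) *
      (∏ c, ((Ω.image (cell (pos n σ ρ c) (slp σ c) (s c))).card : ℝ)) ^ 2 := by
  classical
  set τ := Tuple.sort s with hτ
  have hmono : Monotone (s ∘ τ) := Tuple.monotone_sort s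
  have h01 : s (τ 0) ≤ s (τ 1) := hmono (by decide)
  have h12 : s (τ 1) ≤ s (τ 2) := hmono (by decide)
  have h23 : s (τ 2) ≤ s (τ 3) := hmono (by decide)
  set i₀ := s (τ 0) with hi₀
  have hmin : ∀ c, i₀ ≤ s c := by
    intro c
    obtain ⟨k, rfl⟩ := τ.surjective c
    have : (s ∘ τ) 0 ≤ (s ∘ τ) k := hmono (Fin.zero_le k)
    exact this
  set f : Fin 4 → ℕ × ℕ → ℤ × ℤ := fun c => cell (pos n σ ρ c) (slp σ c) (s c) with hf
  have hclose : ∀ c, ∀ ω ω' : ℕ × ℕ, f c ω = f c ω' →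
      |pos n σ ρ c ω - pos n σ ρ c ω'| ≤ 1 / 2 ^ i₀ ∧ |σ ω - σ ω'| ≤ 1 / 2 ^ i₀ := by
    intro c ω ω' h
    refine ⟨close_of_floor (hmin c) (congrArg Prod.fst h), ?_⟩
    have h' := close_of_floor (hmin c) (congrArg Prod.snd h)
    rw [← abs_lslp_sub c]
    exact h'
  have hpw : (0 : ℝ) < 1 / 2 ^ i₀ := by positivity
  have hmain := card_cube_le_of_pairings Ω (f 0) (f 1) (f 2) (f 3)
    (cell2 (fU n σ) σ i₀) (cell2 (fV n σ) σ i₀)
    (49 * 2 ^ ((n - s (τ 1)) + (n - s (τ 2)))) (49 * 2 ^ (2 * (n - i₀))) 9 ?_ ?_ ?_ ?_ ?_ ?_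
  · refine ⟨s (τ 3), hs _, ?_⟩
    have hsum : ∑ c, s c = s (τ 0) + s (τ 1) + s (τ 2) + s (τ 3) := by
      rw [← Equiv.sum_comp τ s, Fin.sum_univ_four]
    have hprod : ∏ c, ((Ω.image (f c)).card : ℝ) =
        (Ω.image (f 0)).card * (Ω.image (f 1)).card * (Ω.image (f 2)).card *
          (Ω.image (f 3)).card := by
      rw [Fin.prod_univ_four]
    change (Ω.card : ℝ) ^ 3 * 2 ^ (2 * (∑ c, s c)) ≤ 49 ^ 3 * 9 ^ 4 * 2 ^ (6 * n + 2 * s (τ 3)) *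
      (∏ c, ((Ω.image (f c)).card : ℝ)) ^ 2
    rw [hprod]
    set X : ℝ := (Ω.image (f 0)).card * (Ω.image (f 1)).card * (Ω.image (f 2)).card *
          (Ω.image (f 3)).card with hX
    have hexp : (2 * (n - i₀)) + 2 * ((n - s (τ 1)) + (n - s (τ 2))) + 2 * (∑ c, s c) =
        6 * n + 2 * s (τ 3) := by
      rw [hsum]
      have := hs (τ 0); have := hs (τ 1); have := hs (τ 2)
      omega
    have hcast : (((49 * 2 ^ (2 * (n - i₀)) : ℕ) : ℝ)) *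
        (((49 * 2 ^ ((n - s (τ 1)) + (n - s (τ 2))) : ℕ) : ℝ)) ^ 2 * ((9 : ℕ) : ℝ) ^ 4 * X ^ 2 *
        2 ^ (2 * (∑ c, s c)) = 49 ^ 3 * 9 ^ 4 * 2 ^ (6 * n + 2 * s (τ 3)) * X ^ 2 := by
      rw [← hexp]
      generalize (n - s (τ 1)) + (n - s (τ 2)) = e₂
      generalize n - i₀ = e₁
      generalize ∑ c, s c = e₃
      push_cast
      ring
    calc (Ω.card : ℝ) ^ 3 * 2 ^ (2 * (∑ c, s c)) ≤ _ :=
          mul_le_mul_of_nonneg_right hmain (by positivity)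
      _ = _ := hcast
  · intro a b c d
    refine fibre_four hL σ ρ hσ s hs τ h12 h23 _ ((Finset.filter_subset _ _).trans hΩ) ?_
    intro k ω hω ω' hω'
    have h1 := (Finset.mem_filter.mp hω).2
    have h2 := (Finset.mem_filter.mp hω').2
    have : k = 0 ∨ k = 1 ∨ k = 2 ∨ k = 3 := by fin_cases k <;> simp
    rcases this with rfl | rfl | rfl | rfl
    · exact h1.1.trans h2.1.symm
    · exact h1.2.1.trans h2.2.1.symm
    · exact h1.2.2.1.trans h2.2.2.1.symm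
    · exact h1.2.2.2.trans h2.2.2.2.symm
  · intro u v
    refine fibre_two hL σ hσ i₀ (hs _) _ ((Finset.filter_subset _ _).trans hΩ) ?_ ?_
    · intro ω hω ω' hω'
      exact (Finset.mem_filter.mp hω).2.1.trans (Finset.mem_filter.mp hω').2.1.symm
    · intro ω hω ω' hω'
      exact (Finset.mem_filter.mp hω).2.2.trans (Finset.mem_filter.mp hω').2.2.symm
  · intro p
    refine card_image_cell2_le _ _ _ _ ?_
    intro ω hω ω' hω'
    have h := (Finset.mem_filter.mp hω).2.trans (Finset.mem_filter.mp hω').2.symm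
    simp only [Prod.mk.injEq] at h
    have a1 := hclose 0 ω ω' h.1
    have a2 := hclose 2 ω ω' h.2
    refine ⟨?_, a1.2.trans (by linarith)⟩
    have b1 : |(gx n ω + σ ω * gy n ω + ρ ω) - (gx n ω' + σ ω' * gy n ω' + ρ ω')| ≤ 1 / 2 ^ i₀ := a1.1
    have b2 : |(gy n ω - σ ω * gx n ω + ρ ω) - (gy n ω' - σ ω' * gx n ω' + ρ ω')| ≤ 1 / 2 ^ i₀ := a2.1
    unfold fU
    rw [abs_le] at b1 b2 ⊢
    constructor <;> linarith [b1.1, b1.2, b2.1, b2.2]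
  · intro p
    refine card_image_cell2_le _ _ _ _ ?_
    intro ω hω ω' hω'
    have h := (Finset.mem_filter.mp hω).2.trans (Finset.mem_filter.mp hω').2.symm
    simp only [Prod.mk.injEq] at h
    have a1 := hclose 1 ω ω' h.1
    have a2 := hclose 3 ω ω' h.2
    refine ⟨?_, a1.2.trans (by linarith)⟩
    have b1 : |(gx n ω + σ ω * gy n ω - ρ ω) - (gx n ω' + σ ω' * gy n ω' - ρ ω')| ≤ 1 / 2 ^ i₀ := a1.1
    have b2 : |(gy n ω - σ ω * gx n ω - ρ ω) - (gy n ω' - σ ω' * gx n ω' - ρ ω')| ≤ 1 / 2 ^ i₀ := a2.1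
    unfold fU
    rw [abs_le] at b1 b2 ⊢
    constructor <;> linarith [b1.1, b1.2, b2.1, b2.2]
  · intro p
    refine card_image_cell2_le _ _ _ _ ?_
    intro ω hω ω' hω'
    have h := (Finset.mem_filter.mp hω).2.trans (Finset.mem_filter.mp hω').2.symm
    simp only [Prod.mk.injEq] at h
    have a1 := hclose 0 ω ω' h.1
    have a2 := hclose 3 ω ω' h.2
    refine ⟨?_, a1.2.trans (by linarith)⟩
    have b1 : |(gx n ω + σ ω * gy n ω + ρ ω) - (gx n ω' + σ ω' * gy n ω' + ρ ω')| ≤ 1 / 2 ^ i₀ := a1.1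
    have b2 : |(gy n ω - σ ω * gx n ω - ρ ω) - (gy n ω' - σ ω' * gx n ω' - ρ ω')| ≤ 1 / 2 ^ i₀ := a2.1
    unfold fV
    rw [abs_le] at b1 b2 ⊢
    constructor <;> linarith [b1.1, b1.2, b2.1, b2.2]
  · intro p
    refine card_image_cell2_le _ _ _ _ ?_
    intro ω hω ω' hω'
    have h := (Finset.mem_filter.mp hω).2.trans (Finset.mem_filter.mp hω').2.symm
    simp only [Prod.mk.injEq] at h
    have a1 := hclose 1 ω ω' h.1
    have a2 := hclose 2 ω ω' h.2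
    refine ⟨?_, a1.2.trans (by linarith)⟩
    have b1 : |(gx n ω + σ ω * gy n ω - ρ ω) - (gx n ω' + σ ω' * gy n ω' - ρ ω')| ≤ 1 / 2 ^ i₀ := a1.1
    have b2 : |(gy n ω - σ ω * gx n ω + ρ ω) - (gy n ω' - σ ω' * gx n ω' + ρ ω')| ≤ 1 / 2 ^ i₀ := a2.1
    unfold fV
    rw [abs_le] at b1 b2 ⊢
    constructor <;> linarith [b1.1, b1.2, b2.1, b2.2]

end Pool.Agent.MP023cc8
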