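import Mathlib

/-!
# Definitions used in the statement (MP_023cc8_an)
-/

namespace Pool.Agent.MP023cc8

open Metric Filter Topology

/-- The Euclidean plane. -/
abbrev Plane := EuclideanSpace ℝ (Fin 2)

/-- The boundary of the closed square with centre `x`, half-side `r` and orientation `θ`: the points
`x + u (cos θ, sin θ) + v (-sin θ, cos θ)` with `max |u| |v| = r`. -/
def squareBoundary (x : Plane) (r θ : ℝ) : Set Plane :=
  {p | ∃ u v : ℝ, max |u| |v| = r ∧ p 0 = x 0 + u * Real.cos θ - v * Real.sin θ ∧
    p 1 = x 1 + u * Real.sin θ + v * Real.cos θ}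

/-- The set `K` contains, for every point `x` of the unit square, some square boundary centred
at `x`; orientation and side length may depend on `x`. -/
def Admissible (K : Set Plane) : Prop :=
  ∀ x : Plane, (∀ i, x i ∈ Set.Icc (0 : ℝ) 1) → ∃ r : ℝ, 0 < r ∧ ∃ θ : ℝ, squareBoundary x r θ ⊆ K

/-- The set `E` is covered by `N` sets of diameter at most `δ`. -/
def CoveredBy (E : Set Plane) (δ : ℝ) (N : ℕ) : Prop :=
  ∃ U : Fin N → Set Plane, (∀ i, ediam (U i) ≤ ENNReal.ofReal δ) ∧ E ⊆ ⋃ i, U i

/-- The least number of sets of diameter at most `δ` needed to cover `E`. -/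
noncomputable def coverNum (E : Set Plane) (δ : ℝ) : ℕ := sInf {N : ℕ | CoveredBy E δ N}

/-- The lower box dimension. -/
noncomputable def lowerBoxDim (E : Set Plane) : EReal :=
  liminf (fun δ : ℝ => ((Real.log (coverNum E δ) / (-Real.log δ) : ℝ) : EReal)) (𝓝[>] 0)

/-- The upper box dimension. -/
noncomputable def upperBoxDim (E : Set Plane) : EReal :=
  limsup (fun δ : ℝ => ((Real.log (coverNum E δ) / (-Real.log δ) : ℝ) : EReal)) (𝓝[>] 0)

/-- The packing dimension: the infimum over all countable covers of `E` by bounded sets `F i` of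
the supremum of the upper box dimensions of the `F i`. -/
noncomputable def packingDim (E : Set Plane) : EReal :=
  ⨅ (F : ℕ → Set Plane) (_ : ∀ i, Bornology.IsBounded (F i)) (_ : E ⊆ ⋃ i, F i),
    ⨆ i, upperBoxDim (F i)

end Pool.Agent.MP023cc8
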