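import Pool.Agent.Lib.MP_023cc8_an.Main

/-!
# Box and packing dimensions (MP_023cc8_an)
-/

namespace Pool.Agent.MP023cc8

open Metric Filter Topology

theorem CoveredBy.mono {E : Set Plane} {δ δ' : ℝ} {N : ℕ} (h : CoveredBy E δ N) (hδ : δ ≤ δ') :
    CoveredBy E δ' N := by
  obtain ⟨U, hU, hcov⟩ := h
  exact ⟨U, fun i => (hU i).trans (ENNReal.ofReal_le_ofReal hδ), hcov⟩

theorem CoveredBy.closure {E : Set Plane} {δ : ℝ} {N : ℕ} (h : CoveredBy E δ N) :
    CoveredBy (closure E) δ N := by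
  obtain ⟨U, hU, hcov⟩ := h
  refine ⟨fun i => _root_.closure (U i), fun i => ?_, ?_⟩
  · rw [ediam_closure]; exact hU i
  · rw [← closure_iUnion_of_finite]
    exact closure_mono hcov

theorem exists_coveredBy {E : Set Plane} (hE : Bornology.IsBounded E) {δ : ℝ} (hδ : 0 < δ) :
    ∃ N, CoveredBy E δ N := by
  have h1 : TotallyBounded E := by
    have h2 : IsCompact (closure E) := hE.isCompact_closure
    exact h2.totallyBounded.subset subset_closure
  rw [Metric.totallyBounded_iff] at h1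
  obtain ⟨t, ht, hcov⟩ := h1 (δ / 2) (by linarith)
  have : Finite t := ht
  obtain ⟨N, ⟨e⟩⟩ := Finite.exists_equiv_fin t
  refine ⟨N, fun i => ball (e.symm i : Plane) (δ / 2), ?_, ?_⟩
  · intro i
    rw [ediam_le_iff]
    intro x hx y hy
    rw [edist_le_ofReal hδ.le]
    rw [mem_ball] at hx hy
    calc dist x y ≤ dist x (e.symm i : Plane) + dist (y) (e.symm i : Plane) := dist_triangle_right _ _ _
      _ ≤ δ := by linarith
  · intro x hx
    obtain ⟨y, hy⟩ := Set.mem_iUnion.mp (hcov hx)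
    obtain ⟨hyt, hxy⟩ := Set.mem_iUnion.mp hy
    refine Set.mem_iUnion.mpr ⟨e ⟨y, hyt⟩, ?_⟩
    rw [Equiv.symm_apply_apply]
    exact hxy

theorem coveredBy_coverNum {E : Set Plane} (hE : Bornology.IsBounded E) {δ : ℝ} (hδ : 0 < δ) :
    CoveredBy E δ (coverNum E δ) :=
  Nat.sInf_mem (s := {N : ℕ | CoveredBy E δ N}) (exists_coveredBy hE hδ)

theorem coverNum_le {E : Set Plane} {δ : ℝ} {N : ℕ} (h : CoveredBy E δ N) : coverNum E δ ≤ N :=
  Nat.sInf_le h

theorem coverNum_anti {E : Set Plane} (hE : Bornology.IsBounded E) {δ δ' : ℝ} (hδ : 0 < δ)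
    (h : δ ≤ δ') : coverNum E δ' ≤ coverNum E δ :=
  coverNum_le ((coveredBy_coverNum hE hδ).mono h)

theorem growth (C s : ℝ) (hC : 0 < C) (hs : s < 7 / 4) :
    ∀ᶠ n : ℕ in atTop, C * ((n : ℝ) + 1) ^ 10 * ((2 : ℝ) ^ (s * ((n : ℝ) + 1))) ^ 4 <
      (2 : ℝ) ^ (7 * n) := by
  set r : ℝ := (2 : ℝ) ^ (7 - 4 * s) with hr
  have hr1 : 1 < r := Real.one_lt_rpow one_lt_two (by linarith)
  have hrpos : 0 < r := by linarith
  have h1 := (tendsto_pow_const_div_const_pow_of_one_lt 10 hr1).comp (tendsto_add_atTop_nat 1)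
  have h0 : C * 2 ^ 7 * (0 : ℝ) < 1 := by rw [mul_zero]; exact one_pos
  have h2 := (h1.const_mul (C * 2 ^ 7)).eventually (gt_mem_nhds h0)
  filter_upwards [h2] with n hn
  simp only [Function.comp_apply] at hn
  rw [← mul_div_assoc, div_lt_one (by positivity)] at hn
  have e1 : r ^ (n + 1) * ((2 : ℝ) ^ (s * ((n : ℝ) + 1))) ^ 4 = 2 ^ 7 * 2 ^ (7 * n) := by
    rw [hr, ← Real.rpow_natCast ((2 : ℝ) ^ (7 - 4 * s)), ← Real.rpow_natCast ((2 : ℝ) ^ (s * _)),
      ← Real.rpow_mul (by norm_num), ← Real.rpow_mul (by norm_num),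
      ← Real.rpow_add (by norm_num), ← pow_add, ← Real.rpow_natCast]
    congr 1
    push_cast
    ring
  have hpos : (0 : ℝ) < ((2 : ℝ) ^ (s * ((n : ℝ) + 1))) ^ 4 := by positivity
  have h3 := mul_lt_mul_of_pos_right hn hpos
  rw [e1] at h3
  have h4 : (2 : ℝ) ^ 7 * (C * ((n : ℝ) + 1) ^ 10 * ((2 : ℝ) ^ (s * ((n : ℝ) + 1))) ^ 4) <
      2 ^ 7 * 2 ^ (7 * n) := by
    calc _ = C * 2 ^ 7 * ((n + 1 : ℕ) : ℝ) ^ 10 * ((2 : ℝ) ^ (s * ((n : ℝ) + 1))) ^ 4 := by
          push_cast; ring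
      _ < _ := h3
  exact lt_of_mul_lt_mul_left h4 (by positivity)

theorem half_pow (n : ℕ) : (1 / 2 : ℝ) ^ n = 1 / 2 ^ n := by rw [one_div_pow]

theorem lowerBox_ge {K : Set Plane} (hK : IsCompact K) (hadm : Admissible K) {s : ℝ}
    (hs0 : 0 ≤ s) (hs : s < 7 / 4) : (s : EReal) ≤ lowerBoxDim K := by
  obtain ⟨i, C, k, hC, hcount⟩ := main_count (ι := Unit) (F := fun _ => K)
    (fun _ => hK.isClosed) (K := K) (Set.subset_iUnion_of_subset () subset_rfl) hadm
  have hbd := hK.isBounded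
  have hev : ∀ᶠ n : ℕ in atTop, (2 : ℝ) ^ (s * ((n : ℝ) + 1)) ≤ coverNum K (1 / 2 ^ n) := by
    filter_upwards [growth C s hC hs, eventually_ge_atTop k] with n hn hkn
    have h1 := hcount n hkn (fun _ => coverNum K (1 / 2 ^ n))
      (fun _ => coveredBy_coverNum hbd (by positivity))
    rw [Finset.prod_const, Finset.card_univ, Fintype.card_fin] at h1
    have h2 := hn.trans_le h1
    have h3 := lt_of_mul_lt_mul_left h2 (by positivity)
    exact (lt_of_pow_lt_pow_left₀ 4 (Nat.cast_nonneg _) h3).le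
  obtain ⟨n₀, hn₀⟩ := eventually_atTop.mp hev
  refine le_liminf_of_le (by isBoundedDefault) ?_
  have hmem : Set.Ioo (0 : ℝ) ((1 / 2) ^ (n₀ + 1)) ∈ 𝓝[>] (0 : ℝ) :=
    Ioo_mem_nhdsGT (by positivity)
  filter_upwards [hmem] with δ hδ
  obtain ⟨hδ0, hδ1⟩ := hδ
  have hδlt : δ < 1 := hδ1.trans_le (pow_le_one₀ (by norm_num) (by norm_num))
  obtain ⟨n, hn1, hn2⟩ := exists_nat_pow_near_of_lt_one hδ0 hδlt.le
    (by norm_num : (0 : ℝ) < 1 / 2) (by norm_num)
  have hnn : n₀ ≤ n := by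
    by_contra hcon
    push Not at hcon
    have : (1 / 2 : ℝ) ^ (n₀ + 1) ≤ (1 / 2) ^ (n + 1) :=
      pow_le_pow_of_le_one (by norm_num) (by norm_num) (by omega)
    linarith
  have h1 := hn₀ n hnn
  have h2 : coverNum K (1 / 2 ^ n) ≤ coverNum K δ := coverNum_anti hbd hδ0 (by
    rw [← half_pow]; exact hn2)
  have h3 : (2 : ℝ) ^ (s * ((n : ℝ) + 1)) ≤ coverNum K δ := h1.trans (Nat.cast_le.mpr h2)
  have h4 : s * ((n : ℝ) + 1) * Real.log 2 ≤ Real.log (coverNum K δ) := by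
    rw [← Real.log_rpow (by norm_num)]
    exact Real.log_le_log (by positivity) h3
  have hlogδ : 0 < -Real.log δ := by
    have := Real.log_neg hδ0 hδlt
    linarith
  have h5 : -Real.log δ ≤ ((n : ℝ) + 1) * Real.log 2 := by
    have h6 := Real.log_le_log (by positivity) hn1.le
    rw [Real.log_pow, one_div, Real.log_inv] at h6
    push_cast at h6
    linarith
  have h6 : s ≤ Real.log (coverNum K δ) / (-Real.log δ) := by
    rw [le_div_iff₀ hlogδ]
    calc s * (-Real.log δ) ≤ s * (((n : ℝ) + 1) * Real.log 2) := mul_le_mul_of_nonneg_left h5 hs0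
      _ = s * ((n : ℝ) + 1) * Real.log 2 := by ring
      _ ≤ _ := h4
  exact_mod_cast h6

theorem packing_ge {K : Set Plane} (hadm : Admissible K) {s : ℝ} (hs0 : 0 ≤ s) (hs : s < 7 / 4)
    (F : ℕ → Set Plane) (hF : ∀ i, Bornology.IsBounded (F i)) (hK : K ⊆ ⋃ i, F i) :
    ∃ i, (s : EReal) ≤ upperBoxDim (F i) := by
  obtain ⟨i, C, k, hC, hcount⟩ := main_count (F := fun i => closure (F i))
    (fun _ => isClosed_closure) (K := K)
    (hK.trans (Set.iUnion_mono fun i => subset_closure)) hadm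
  by_contra hcon
  push Not at hcon
  have h1 : ∀ c : Fin 4, ∀ᶠ n : ℕ in atTop,
      (coverNum (F (i c)) (1 / 2 ^ n) : ℝ) ≤ (2 : ℝ) ^ (s * ((n : ℝ) + 1)) := by
    intro c
    have h2 := eventually_lt_of_limsup_lt (hcon (i c)) (by isBoundedDefault)
    have h3 : Tendsto (fun n : ℕ => (1 / 2 : ℝ) ^ n) atTop (𝓝[>] 0) := by
      refine tendsto_nhdsWithin_iff.mpr ⟨?_, ?_⟩
      · exact tendsto_pow_atTop_nhds_zero_of_lt_one (by norm_num) (by norm_num)
      · exact Eventually.of_forall fun n => Set.mem_Ioi.mpr (by positivity)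
    filter_upwards [h3.eventually h2, eventually_ge_atTop 1] with n hn hn1
    rw [half_pow] at hn
    set M := coverNum (F (i c)) (1 / 2 ^ n) with hM
    have h4 : Real.log M / (-Real.log (1 / 2 ^ n)) < s := by exact_mod_cast hn
    have h5 : -Real.log (1 / 2 ^ n) = n * Real.log 2 := by
      rw [one_div, Real.log_inv, Real.log_pow, neg_neg]
    have hnr : (0 : ℝ) < n := by exact_mod_cast hn1
    have hl2 : 0 < Real.log 2 := Real.log_pos one_lt_two
    rw [h5, div_lt_iff₀ (by positivity)] at h4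
    rcases Nat.eq_zero_or_pos M with h0 | hpos
    · rw [h0]; simp only [Nat.cast_zero]; positivity
    · have hMr : (0 : ℝ) < M := Nat.cast_pos.mpr hpos
      rw [← Real.log_le_log_iff hMr (by positivity), Real.log_rpow (by norm_num)]
      have : s * (n * Real.log 2) ≤ s * ((n : ℝ) + 1) * Real.log 2 := by nlinarith
      linarith
  have h2 : ∀ᶠ n : ℕ in atTop, ∀ c : Fin 4,
      (coverNum (F (i c)) (1 / 2 ^ n) : ℝ) ≤ (2 : ℝ) ^ (s * ((n : ℝ) + 1)) :=
    eventually_all.mpr h1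
  obtain ⟨n, hn1, hn2, hn3⟩ := (h2.and ((growth C s hC hs).and (eventually_ge_atTop k))).exists
  have h3 := hcount n hn3 (fun c => coverNum (F (i c)) (1 / 2 ^ n))
    (fun c => (coveredBy_coverNum (hF (i c)) (by positivity)).closure)
  have h4 : ∏ c, (coverNum (F (i c)) (1 / 2 ^ n) : ℝ) ≤ ((2 : ℝ) ^ (s * ((n : ℝ) + 1))) ^ 4 := by
    calc ∏ c, (coverNum (F (i c)) (1 / 2 ^ n) : ℝ) ≤ ∏ _c : Fin 4, (2 : ℝ) ^ (s * ((n : ℝ) + 1)) :=
          Finset.prod_le_prod (fun _ _ => Nat.cast_nonneg _) fun c _ => hn1 c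
      _ = _ := by rw [Finset.prod_const, Finset.card_univ, Fintype.card_fin]
  have h5 : (2 : ℝ) ^ (7 * n) ≤ C * ((n : ℝ) + 1) ^ 10 * ((2 : ℝ) ^ (s * ((n : ℝ) + 1))) ^ 4 :=
    h3.trans (mul_le_mul_of_nonneg_left h4 (by positivity))
  linarith

theorem le_of_forall_real {a : EReal} (h : ∀ s : ℝ, 0 ≤ s → s < 7 / 4 → (s : EReal) ≤ a) :
    ((7 / 4 : ℝ) : EReal) ≤ a := by
  refine le_of_forall_lt fun b hb => ?_
  obtain ⟨t, ht1, ht2⟩ := EReal.lt_iff_exists_real_btwn.mp hb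
  have ht3 : t < 7 / 4 := EReal.coe_lt_coe_iff.mp ht2
  have h1 : max t 0 < 7 / 4 := max_lt ht3 (by norm_num)
  have h2 : (t : EReal) ≤ ((max t 0 : ℝ) : EReal) := EReal.coe_le_coe_iff.mpr (le_max_left _ _)
  exact ht1.trans_le (h2.trans (h _ (le_max_right _ _) h1))

/-- Every compact set that contains a square boundary centred at every point of the unit square
has lower box dimension and packing dimension at least `7/4`. -/
theorem main {K : Set Plane} (hK : IsCompact K) (hadm : Admissible K) :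
    ((7 / 4 : ℝ) : EReal) ≤ lowerBoxDim K ∧ ((7 / 4 : ℝ) : EReal) ≤ packingDim K := by
  constructor
  · exact le_of_forall_real fun s hs0 hs => lowerBox_ge hK hadm hs0 hs
  · refine le_iInf fun F => le_iInf fun hF => le_iInf fun hcov => ?_
    refine le_of_forall_real fun s hs0 hs => ?_
    obtain ⟨i, hi⟩ := packing_ge hadm hs0 hs F hF hcov
    exact hi.trans (le_iSup (fun i => upperBoxDim (F i)) i)

end Pool.Agent.MP023cc8
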