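import Pool.Agent.Lib.MP_023cc8_an.Core

/-!
# The discrete estimate for families of squares (MP_023cc8_an)
-/

namespace Pool.Agent.MP023cc8

open Finset

theorem final_numeric {X l j t lam D m w : ℝ} (hX : 0 ≤ X) (hl : 0 ≤ l) (hj : 0 ≤ j) (ht : 0 < t)
    (hlam : 0 ≤ lam) (hD : 0 ≤ D) (hm : 0 ≤ m) (h1 : l ^ 2 ≤ 2 * X ^ 4 * w)
    (h2 : w ^ 3 * j ^ 16 ≤ 49 ^ 3 * 9 ^ 4 * t ^ 8 * (D * X) ^ 8 * m ^ 2)
    (h3 : t ≤ lam * l) (h4 : t ≤ lam * j) :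
    t ^ 7 ≤ 83349 * D ^ 4 * lam ^ 11 * X ^ 10 * m := by
  have a1 : t ^ 22 ≤ (lam * l) ^ 6 * (lam * j) ^ 16 := by
    calc t ^ 22 = t ^ 6 * t ^ 16 := by ring
      _ ≤ (lam * l) ^ 6 * (lam * j) ^ 16 :=
        mul_le_mul (pow_le_pow_left₀ ht.le h3 6) (pow_le_pow_left₀ ht.le h4 16)
          (by positivity) (by positivity)
  have a2 : (l ^ 2) ^ 3 ≤ (2 * X ^ 4 * w) ^ 3 := pow_le_pow_left₀ (sq_nonneg l) h1 3
  have a3 : t ^ 22 ≤ lam ^ 22 * (8 * X ^ 12) * (49 ^ 3 * 9 ^ 4 * t ^ 8 * (D * X) ^ 8 * m ^ 2) := by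
    calc t ^ 22 ≤ (lam * l) ^ 6 * (lam * j) ^ 16 := a1
      _ = (lam ^ 22 * j ^ 16) * (l ^ 2) ^ 3 := by ring
      _ ≤ (lam ^ 22 * j ^ 16) * (2 * X ^ 4 * w) ^ 3 :=
        mul_le_mul_of_nonneg_left a2 (by positivity)
      _ = (lam ^ 22 * (8 * X ^ 12)) * (w ^ 3 * j ^ 16) := by ring
      _ ≤ (lam ^ 22 * (8 * X ^ 12)) * (49 ^ 3 * 9 ^ 4 * t ^ 8 * (D * X) ^ 8 * m ^ 2) :=
        mul_le_mul_of_nonneg_left h2 (by positivity)
  have a4 : t ^ 14 * t ^ 8 ≤ (lam ^ 22 * 8 * 49 ^ 3 * 9 ^ 4 * D ^ 8 * X ^ 20 * m ^ 2) * t ^ 8 := by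
    calc t ^ 14 * t ^ 8 = t ^ 22 := by ring
      _ ≤ _ := a3
      _ = _ := by ring
  have a5 := le_of_mul_le_mul_right a4 (by positivity)
  have a6 : (t ^ 7) ^ 2 ≤ (83349 * D ^ 4 * lam ^ 11 * X ^ 10 * m) ^ 2 := by
    calc (t ^ 7) ^ 2 = t ^ 14 := by ring
      _ ≤ lam ^ 22 * 8 * 49 ^ 3 * 9 ^ 4 * D ^ 8 * X ^ 20 * m ^ 2 := a5
      _ = (8 * 49 ^ 3 * 9 ^ 4) * (lam ^ 22 * D ^ 8 * X ^ 20 * m ^ 2) := by ring
      _ ≤ (83349 ^ 2) * (lam ^ 22 * D ^ 8 * X ^ 20 * m ^ 2) :=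
        mul_le_mul_of_nonneg_right (by norm_num) (by positivity)
      _ = _ := by ring
  exact (pow_le_pow_iff_left₀ (by positivity) (by positivity) two_ne_zero).mp a6

theorem cells_numeric {N M X C B J p : ℝ} (hN : 0 < N) (hM : 0 < M) (hX : 0 < X) (hC : 0 < C)
    (hJ : 0 < J) :
    B * (N * p) / (N * J ^ 2 / (8 * M * X * C)) = 8 * B * C * X * M * p / J ^ 2 := by
  field_simp

theorem prod_numeric (E : ℝ) (M : Fin 4 → ℝ) (s : Fin 4 → ℕ) (J : ℝ) :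
    ∏ c, (E * M c * 2 ^ (s c) / J ^ 2) = E ^ 4 * (∏ c, M c) * 2 ^ (∑ c, s c) / J ^ 8 := by
  rw [Finset.prod_div_distrib, Finset.prod_mul_distrib, Finset.prod_mul_distrib,
    Finset.prod_const, Finset.prod_pow_eq_pow_sum, Finset.prod_const, Finset.card_univ,
    Fintype.card_fin, ← pow_mul]

theorem hw2_numeric {w J E m P : ℝ} {S n i : ℕ}
    (hcube : w ^ 3 * 2 ^ (2 * S) ≤ 49 ^ 3 * 9 ^ 4 * 2 ^ (6 * n + 2 * i) * P ^ 2) (hi : i ≤ n)
    (hP : 0 ≤ P) (hprod : P ≤ E ^ 4 * m * 2 ^ S / J ^ 8) (hJ : 0 < J) :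
    w ^ 3 * J ^ 16 ≤ 49 ^ 3 * 9 ^ 4 * ((2 : ℝ) ^ n) ^ 8 * E ^ 8 * m ^ 2 := by
  have e1 : (2 : ℝ) ^ (6 * n + 2 * i) ≤ ((2 : ℝ) ^ n) ^ 8 := by
    rw [← pow_mul]
    exact pow_le_pow_right₀ (by norm_num) (by omega)
  have e2 : w ^ 3 * 2 ^ (2 * S) ≤ 49 ^ 3 * 9 ^ 4 * ((2 : ℝ) ^ n) ^ 8 *
      (E ^ 4 * m * 2 ^ S / J ^ 8) ^ 2 := by
    refine hcube.trans ?_
    refine mul_le_mul ?_ ?_ (by positivity) (by positivity)
    · exact mul_le_mul_of_nonneg_left e1 (by positivity)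
    · exact pow_le_pow_left₀ hP hprod 2
  have e3 : 49 ^ 3 * 9 ^ 4 * ((2 : ℝ) ^ n) ^ 8 * (E ^ 4 * m * 2 ^ S / J ^ 8) ^ 2 =
      (49 ^ 3 * 9 ^ 4 * ((2 : ℝ) ^ n) ^ 8 * E ^ 8 * m ^ 2) * 2 ^ (2 * S) / J ^ 16 := by
    rw [div_pow, mul_comm 2 S, pow_mul (2 : ℝ) S 2, mul_div_assoc']
    congr 1
    · ring
    · ring
  rw [e3, le_div_iff₀ (by positivity)] at e2
  have e4 : w ^ 3 * J ^ 16 * 2 ^ (2 * S) ≤
      (49 ^ 3 * 9 ^ 4 * ((2 : ℝ) ^ n) ^ 8 * E ^ 8 * m ^ 2) * 2 ^ (2 * S) := by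
    calc _ = w ^ 3 * 2 ^ (2 * S) * J ^ 16 := by ring
      _ ≤ _ := e2
  exact le_of_mul_le_mul_right e4 (by positivity)

/-- The constant in the discrete estimate. -/
noncomputable def constK (H Λ : ℕ) : ℝ :=
  83349 * (8 * (3 * (2 * H + 3)) * (H + 1)) ^ 4 * Λ ^ 11

/-- The discrete estimate: the product of the sizes of the slices of the four families of side
lines is at least `2^{7n}` up to a polynomial factor in `n`. -/
theorem core_estimate (n H Λ L J : ℕ) (hH : 1 ≤ H) (hL : L ≤ 2 ^ n) (hΛL : 2 ^ n ≤ Λ * L)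
    (hJ : J ≤ (H + 1) * 2 ^ n) (hΛJ : 2 ^ n ≤ Λ * J) (σ ρ : ℕ × ℕ → ℝ)
    (hσ : ∀ ω ∈ grid L, |σ ω| ≤ 1 / 4) (h₀ : Fin 4 → ℝ)
    (hh : ∀ c, ∀ j < J, |height (h₀ c) n j| ≤ H) (M : Fin 4 → ℝ)
    (hM : ∀ c, ∑ j ∈ Finset.range J,
      (((grid L).image (slot (h₀ c) n (pos n σ ρ c) (slp σ c) j)).card : ℝ) ≤ M c) :
    (2 : ℝ) ^ (7 * n) ≤ constK H Λ * (n + 1) ^ 10 * ∏ c, M c := by
  classical
  have h2n : 0 < 2 ^ n := by positivity
  have hLpos : 0 < L := by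
    rcases Nat.eq_zero_or_pos L with h | h
    · rw [h] at hΛL; omega
    · exact h
  have hJpos : 0 < J := by
    rcases Nat.eq_zero_or_pos J with h | h
    · rw [h] at hΛJ; omega
    · exact h
  set Ω := grid L with hΩ
  have hcardΩ : Ω.card = L * L := by
    rw [hΩ]; unfold grid; rw [Finset.card_product, Finset.card_range]
  have hΩne : Ω.Nonempty := by
    rw [← Finset.card_pos, hcardΩ]; positivity
  set N₀ : ℝ := (Ω.card : ℝ) with hN₀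
  have hN₀pos : 0 < N₀ := Nat.cast_pos.mpr (Finset.card_pos.mpr hΩne)
  set X : ℝ := (n : ℝ) + 1 with hX
  have hXpos : 0 < X := by positivity
  set C : ℝ := (H : ℝ) + 1 with hC
  have hCpos : 0 < C := by positivity
  have hJr : (0 : ℝ) < J := Nat.cast_pos.mpr hJpos
  -- M c > 0
  have hMpos : ∀ c, 0 < M c := by
    intro c
    refine lt_of_lt_of_le ?_ (hM c)
    have h1 : ∀ j ∈ Finset.range J,
        (0 : ℝ) < (((grid L).image (slot (h₀ c) n (pos n σ ρ c) (slp σ c) j)).card : ℝ) := by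
      intro j _
      exact Nat.cast_pos.mpr (Finset.card_pos.mpr (hΩne.image _))
    exact Finset.sum_pos h1 ⟨0, Finset.mem_range.mpr hJpos⟩
  set φ : Fin 4 → ℝ := fun c => N₀ * J ^ 2 / (8 * M c * X * C) with hφ
  have hφpos : ∀ c, 0 < φ c := fun c => by
    have := hMpos c
    simp only [hφ]
    positivity
  set Bad : Fin 4 → Finset (ℕ × ℕ) := fun c =>
    Ω.filter (fun ω => ∀ i ≤ n, 2 ^ i * (wt Ω H (pos n σ ρ c) (slp σ c) i ω : ℝ) ≤ φ c) with hBad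
  have hslope : ∀ c, ∀ ω ∈ Ω, |slp σ c ω| ≤ 1 / 2 := by
    intro c ω hω
    unfold slp
    rw [abs_lslp]
    exact (hσ ω hω).trans (by norm_num)
  have hBadcard : ∀ c, ((Bad c).card : ℝ) ≤ N₀ / 8 := by
    intro c
    have h := slice_estimate Ω (Bad c) (Finset.filter_subset _ _) n H J hH (h₀ c)
      (pos n σ ρ c) (slp σ c) (hslope c) (hh c) hJ (φ c) (hφpos c).le
      (fun ω hω i hi => (Finset.mem_filter.mp hω).2 i hi)
    have h2 : (∑ j ∈ Finset.range J,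
        ((Ω.image (slot (h₀ c) n (pos n σ ρ c) (slp σ c) j)).card : ℝ)) *
          ((n + 1) * ((H + 1) * φ c)) ≤ M c * (X * (C * φ c)) := by
      refine mul_le_mul_of_nonneg_right (hM c) ?_
      have := (hφpos c).le
      positivity
    have h3 : M c * (X * (C * φ c)) = (J : ℝ) ^ 2 * (N₀ / 8) := by
      simp only [hφ]
      have := (hMpos c).ne'
      field_simp
    have h4 : (J : ℝ) ^ 2 * ((Bad c).card : ℝ) ≤ (J : ℝ) ^ 2 * (N₀ / 8) := by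
      calc _ ≤ _ := h
        _ ≤ _ := h2
        _ = _ := h3
    exact le_of_mul_le_mul_left h4 (by positivity)
  set Good := Ω \ (Finset.univ.biUnion Bad) with hGood
  have hGoodcard : N₀ / 2 ≤ (Good.card : ℝ) := by
    have h1 : ((Finset.univ.biUnion Bad).card : ℝ) ≤ ∑ c, ((Bad c).card : ℝ) := by
      exact_mod_cast Finset.card_biUnion_le
    have h2 : ∑ c, ((Bad c).card : ℝ) ≤ ∑ _c : Fin 4, N₀ / 8 :=
      Finset.sum_le_sum fun c _ => hBadcard c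
    have h3 : ∑ _c : Fin 4, N₀ / 8 = N₀ / 2 := by
      rw [Finset.sum_const, Finset.card_univ, Fintype.card_fin, nsmul_eq_mul]
      push_cast; ring
    have h4 : Ω.card ≤ Good.card + (Finset.univ.biUnion Bad).card := by
      rw [hGood]
      have h41 : Ω ⊆ (Ω \ Finset.univ.biUnion Bad) ∪ Finset.univ.biUnion Bad := by
        intro ω hω
        rw [Finset.mem_union, Finset.mem_sdiff]
        by_cases h : ω ∈ Finset.univ.biUnion Bad
        · exact Or.inr h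
        · exact Or.inl ⟨hω, h⟩
      exact (Finset.card_le_card h41).trans (Finset.card_union_le _ _)
    have h5 : N₀ ≤ (Good.card : ℝ) + ((Finset.univ.biUnion Bad).card : ℝ) := by
      rw [hN₀, ← Nat.cast_add]
      exact Nat.cast_le.mpr h4
    linarith
  have hchoose : ∀ ω ∈ Good, ∀ c : Fin 4, ∃ i : Fin (n + 1),
      φ c ≤ 2 ^ (i : ℕ) * (wt Ω H (pos n σ ρ c) (slp σ c) i ω : ℝ) := by
    intro ω hω c
    rw [hGood, Finset.mem_sdiff, Finset.mem_biUnion] at hω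
    have h1 : ω ∉ Bad c := fun h => hω.2 ⟨c, Finset.mem_univ c, h⟩
    simp only [hBad, Finset.mem_filter, not_and] at h1
    have h2 := h1 hω.1
    push Not at h2
    obtain ⟨i, hi, h3⟩ := h2
    exact ⟨⟨i, by omega⟩, h3.le⟩
  choose! ι hι using hchoose
  -- pigeonhole
  obtain ⟨v, -, hv⟩ := Finset.exists_le_card_fiber_of_nsmul_le_card_of_maps_to
    (s := Good) (t := (Finset.univ : Finset (Fin 4 → Fin (n + 1)))) (f := ι)
    (b := (Good.card : ℝ) / X ^ 4) (fun _ _ => Finset.mem_univ _) Finset.univ_nonempty (by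
      rw [Finset.card_univ, Fintype.card_fun, Fintype.card_fin, Fintype.card_fin, nsmul_eq_mul]
      push_cast
      rw [← hX, mul_div_cancel₀]
      positivity)
  set Ω'' := Good.filter (fun ω => ι ω = v) with hΩ''
  have hsub' : Ω'' ⊆ Ω := (Finset.filter_subset _ _).trans Finset.sdiff_subset
  set s : Fin 4 → ℕ := fun c => (v c : ℕ) with hs
  have hsn : ∀ c, s c ≤ n := fun c => by have := (v c).isLt; simp only [hs]; omega
  obtain ⟨i₃, hi₃, hcube⟩ := cube_le hL σ ρ hσ s hsn Ω'' hsub'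
  set B : ℝ := 3 * (2 * (H : ℝ) + 3) with hB
  have hBpos : 0 < B := by positivity
  set D : ℝ := 8 * B * C with hD
  have hDpos : 0 < D := by positivity
  -- number of cells
  have hcells : ∀ c, ((Ω''.image (cell (pos n σ ρ c) (slp σ c) (s c))).card : ℝ) ≤
      D * X * M c * 2 ^ (s c) / J ^ 2 := by
    intro c
    have h := cells_estimate Ω Ω'' hsub' H (pos n σ ρ c) (slp σ c) (s c) (φ c) (by
      intro ω hω
      have h1 := Finset.mem_filter.mp hω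
      have h2 := hι ω h1.1 c
      rw [h1.2] at h2
      exact h2)
    rw [← le_div_iff₀ (hφpos c)] at h
    refine h.trans (le_of_eq ?_)
    exact cells_numeric hN₀pos (hMpos c) hXpos hCpos hJr
  have hprod : (∏ c, ((Ω''.image (cell (pos n σ ρ c) (slp σ c) (s c))).card : ℝ)) ≤
      (D * X) ^ 4 * (∏ c, M c) * 2 ^ (∑ c, s c) / J ^ 8 := by
    calc (∏ c, ((Ω''.image (cell (pos n σ ρ c) (slp σ c) (s c))).card : ℝ))
        ≤ ∏ c, (D * X * M c * 2 ^ (s c) / J ^ 2) :=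
          Finset.prod_le_prod (fun _ _ => Nat.cast_nonneg _) (fun c _ => hcells c)
      _ = _ := prod_numeric (D * X) M s J
  set m : ℝ := ∏ c, M c with hm
  have hmpos : 0 < m := Finset.prod_pos fun c _ => hMpos c
  set w : ℝ := (Ω''.card : ℝ) with hw
  have hw1 : (L : ℝ) ^ 2 ≤ 2 * X ^ 4 * w := by
    have h1 : N₀ = (L : ℝ) ^ 2 := by
      rw [hN₀, hcardΩ]; push_cast; ring
    have h2 : (Good.card : ℝ) ≤ X ^ 4 * w := by
      rw [div_le_iff₀ (by positivity)] at hv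
      linarith
    rw [← h1]
    linarith
  have hw2 : w ^ 3 * (J : ℝ) ^ 16 ≤ 49 ^ 3 * 9 ^ 4 * ((2 : ℝ) ^ n) ^ 8 * (D * X) ^ 8 * m ^ 2 := by
    exact hw2_numeric hcube (by omega) (Finset.prod_nonneg fun _ _ => Nat.cast_nonneg _) hprod hJr
  have hfin := final_numeric hXpos.le (Nat.cast_nonneg L) (Nat.cast_nonneg J) (t := (2 : ℝ) ^ n)
    (by positivity) (Nat.cast_nonneg Λ) hDpos.le hmpos.le hw1 hw2 (by exact_mod_cast hΛL)
    (by exact_mod_cast hΛJ)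
  calc (2 : ℝ) ^ (7 * n) = ((2 : ℝ) ^ n) ^ 7 := by rw [← pow_mul, mul_comm]
    _ ≤ _ := hfin
    _ = _ := by rw [constK]

end Pool.Agent.MP023cc8
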