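import Pool.Agent.Lib.MP_023cc8_an.Estimate
import Pool.Agent.Lib.MP_023cc8_an.Defs

/-!
# Squares, frames and Baire category (MP_023cc8_an)
-/

namespace Pool.Agent.MP023cc8

open Finset Metric

/-- A covering by sets of diameter at most `2^{-n}` meets few slots. -/
theorem cover_slots {X : Type*} [PseudoMetricSpace X] {α : Type*} (Ω : Finset α) (n J N : ℕ)
    (h₀ : ℝ) (a b : α → ℝ) (hgt val : X → ℝ) (hh : ∀ p q, |hgt p - hgt q| ≤ dist p q)
    (hv : ∀ p q, |val p - val q| ≤ dist p q) (E : Set X) (U : Fin N → Set X)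
    (hU : ∀ i, ediam (U i) ≤ ENNReal.ofReal (1 / 2 ^ n)) (hcov : E ⊆ ⋃ i, U i)
    (hpts : ∀ ω ∈ Ω, ∀ j < J, ∃ p ∈ E, hgt p = height h₀ n j ∧ val p = a ω + b ω * height h₀ n j) :
    ∑ j ∈ Finset.range J, (Ω.image (slot h₀ n a b j)).card ≤ 2 * N := by
  classical
  set P : Finset (Σ _ : ℕ, ℤ) := (Finset.range J).sigma (fun j => Ω.image (slot h₀ n a b j)) with hP
  have hcard : P.card = ∑ j ∈ Finset.range J, (Ω.image (slot h₀ n a b j)).card := by
    rw [hP, Finset.card_sigma]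
  rw [← hcard]
  have key : ∀ z ∈ P, ∃ (i : Fin N) (p : X), p ∈ U i ∧ hgt p = height h₀ n z.1 ∧
      ⌊2 ^ n * val p⌋ = z.2 := by
    intro z hz
    rw [hP, Finset.mem_sigma, Finset.mem_range, Finset.mem_image] at hz
    obtain ⟨hj, ω, hω, hk⟩ := hz
    obtain ⟨p, hpE, hp1, hp2⟩ := hpts ω hω z.1 hj
    obtain ⟨i, hi⟩ := Set.mem_iUnion.mp (hcov hpE)
    refine ⟨i, p, hi, hp1, ?_⟩
    rw [hp2, ← hk]
    rfl
  rcases P.eq_empty_or_nonempty with he | ⟨z₀, hz₀⟩
  · rw [he]; simp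
  obtain ⟨i₀, p₀, -⟩ := key z₀ hz₀
  have : Nonempty (Fin N) := ⟨i₀⟩
  have : Nonempty X := ⟨p₀⟩
  choose! g p hgU hgh hgv using key
  have hclose : ∀ z ∈ P, ∀ z' ∈ P, g z = g z' → z.1 = z'.1 ∧ z.2 - z'.2 ≤ 1 := by
    intro z hz z' hz' hg
    have h1 : dist (p z) (p z') ≤ 1 / 2 ^ n := by
      rw [← edist_le_ofReal (by positivity)]
      refine (edist_le_ediam_of_mem (hgU z hz) ?_).trans (hU (g z))
      rw [hg]
      exact hgU z' hz'
    have h2n : (0 : ℝ) < 2 ^ n := by positivity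
    have h2 : |hgt (p z) - hgt (p z')| ≤ 1 / 2 ^ n := (hh _ _).trans h1
    have h3 : |val (p z) - val (p z')| ≤ 1 / 2 ^ n := (hv _ _).trans h1
    rw [hgh z hz, hgh z' hz'] at h2
    constructor
    · have h4 : |2 ^ n * (height h₀ n z.1 - height h₀ n z'.1)| ≤ 1 := by
        rw [abs_mul, abs_of_pos h2n]
        calc 2 ^ n * |height h₀ n z.1 - height h₀ n z'.1| ≤ 2 ^ n * (1 / 2 ^ n) :=
              mul_le_mul_of_nonneg_left h2 h2n.le
          _ = 1 := by field_simp
      rw [height_sub, abs_le] at h4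
      have h5 : (z.1 : ℝ) < z'.1 + 1 := by linarith [h4.2]
      have h6 : (z'.1 : ℝ) < z.1 + 1 := by linarith [h4.1]
      have h7 : z.1 < z'.1 + 1 := by exact_mod_cast h5
      have h8 : z'.1 < z.1 + 1 := by exact_mod_cast h6
      omega
    · rw [← hgv z hz, ← hgv z' hz']
      apply floor_sub_le
      push_cast
      rw [← mul_sub]
      calc 2 ^ n * (val (p z) - val (p z')) ≤ 2 ^ n * (1 / 2 ^ n) :=
            mul_le_mul_of_nonneg_left ((le_abs_self _).trans h3) h2n.le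
        _ = 1 := by field_simp
  have h1 : P.card ≤ 2 * (P.image g).card := by
    refine Finset.card_le_mul_card_image P 2 ?_
    intro i _
    have e1 : (P.filter (fun z => g z = i)).card =
        ((P.filter (fun z => g z = i)).image (fun z => z.2)).card := by
      rw [Finset.card_image_of_injOn]
      intro z hz z' hz' he
      simp only [Finset.coe_filter, Set.mem_ofPred_eq] at hz hz'
      have h2 := (hclose z hz.1 z' hz'.1 (hz.2.trans hz'.2.symm)).1
      have he' : z.2 = z'.2 := he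
      obtain ⟨z1, z2⟩ := z
      obtain ⟨z1', z2'⟩ := z'
      simp only at h2 he'
      subst h2 he'
      rfl
    rw [e1]
    refine card_le_of_close _ 1 ?_
    intro x hx y hy
    obtain ⟨z, hz, rfl⟩ := Finset.mem_image.mp hx
    obtain ⟨z', hz', rfl⟩ := Finset.mem_image.mp hy
    rw [Finset.mem_filter] at hz hz'
    have := (hclose z hz.1 z' hz'.1 (hz.2.trans hz'.2.symm)).2
    push_cast
    exact this
  refine h1.trans (Nat.mul_le_mul_left _ ?_)
  calc (P.image g).card ≤ (Finset.univ : Finset (Fin N)).card :=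
        Finset.card_le_card (Finset.subset_univ _)
    _ = N := by rw [Finset.card_univ, Fintype.card_fin]

/-- The point with coordinates `(X, Y)` in the frame of angle `θ₀` at `x`. -/
noncomputable def pt (θ₀ : ℝ) (x : Plane) (X Y : ℝ) : Plane :=
  !₂[x 0 + X * Real.cos θ₀ - Y * Real.sin θ₀, x 1 + X * Real.sin θ₀ + Y * Real.cos θ₀]

theorem pt_zero (θ₀ : ℝ) (x : Plane) (X Y : ℝ) :
    (pt θ₀ x X Y) 0 = x 0 + X * Real.cos θ₀ - Y * Real.sin θ₀ := rfl

theorem pt_one (θ₀ : ℝ) (x : Plane) (X Y : ℝ) :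
    (pt θ₀ x X Y) 1 = x 1 + X * Real.sin θ₀ + Y * Real.cos θ₀ := rfl

/-- First frame coordinate. -/
noncomputable def fX (θ₀ : ℝ) (x p : Plane) : ℝ :=
  (p 0 - x 0) * Real.cos θ₀ + (p 1 - x 1) * Real.sin θ₀

/-- Second frame coordinate. -/
noncomputable def fY (θ₀ : ℝ) (x p : Plane) : ℝ :=
  -((p 0 - x 0) * Real.sin θ₀) + (p 1 - x 1) * Real.cos θ₀

theorem fX_pt (θ₀ : ℝ) (x : Plane) (X Y X' Y' : ℝ) :
    fX θ₀ x (pt θ₀ (pt θ₀ x X Y) X' Y') = X + X' := by
  unfold fX
  rw [pt_zero, pt_one, pt_zero, pt_one]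
  have := Real.sin_sq_add_cos_sq θ₀
  linear_combination (X + X') * this

theorem fY_pt (θ₀ : ℝ) (x : Plane) (X Y X' Y' : ℝ) :
    fY θ₀ x (pt θ₀ (pt θ₀ x X Y) X' Y') = Y + Y' := by
  unfold fY
  rw [pt_zero, pt_one, pt_zero, pt_one]
  have := Real.sin_sq_add_cos_sq θ₀
  linear_combination (Y + Y') * this

theorem abs_lin_le {a b c s : ℝ} (h : s ^ 2 + c ^ 2 = 1) :
    |a * c + b * s| ≤ Real.sqrt (a ^ 2 + b ^ 2) := by
  apply Real.abs_le_sqrt
  nlinarith [sq_nonneg (a * s - b * c)]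

theorem dist_plane (p q : Plane) :
    dist p q = Real.sqrt ((p 0 - q 0) ^ 2 + (p 1 - q 1) ^ 2) := by
  rw [EuclideanSpace.dist_eq, Fin.sum_univ_two, Real.dist_eq, Real.dist_eq, sq_abs, sq_abs]

theorem fX_lip (θ₀ : ℝ) (x p q : Plane) : |fX θ₀ x p - fX θ₀ x q| ≤ dist p q := by
  rw [dist_plane]
  have h := abs_lin_le (a := p 0 - q 0) (b := p 1 - q 1) (Real.sin_sq_add_cos_sq θ₀)
  have e : fX θ₀ x p - fX θ₀ x q = (p 0 - q 0) * Real.cos θ₀ + (p 1 - q 1) * Real.sin θ₀ := by
    unfold fX; ring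
  rw [e]
  exact h

theorem fY_lip (θ₀ : ℝ) (x p q : Plane) : |fY θ₀ x p - fY θ₀ x q| ≤ dist p q := by
  rw [dist_plane]
  have h := abs_lin_le (a := p 0 - q 0) (b := p 1 - q 1) (c := -Real.sin θ₀) (s := Real.cos θ₀)
    (by rw [neg_sq, add_comm]; exact Real.sin_sq_add_cos_sq θ₀)
  have e : fY θ₀ x p - fY θ₀ x q = (p 0 - q 0) * -Real.sin θ₀ + (p 1 - q 1) * Real.cos θ₀ := by
    unfold fY; ring
  rw [e]
  exact h

theorem dist_pt_le (θ₀ : ℝ) (x : Plane) (X Y : ℝ) : dist (pt θ₀ x X Y) x ≤ |X| + |Y| := by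
  rw [dist_plane, pt_zero, pt_one]
  apply Real.sqrt_le_iff.mpr
  refine ⟨by positivity, ?_⟩
  have h := Real.sin_sq_add_cos_sq θ₀
  have e : (x 0 + X * Real.cos θ₀ - Y * Real.sin θ₀ - x 0) ^ 2 +
      (x 1 + X * Real.sin θ₀ + Y * Real.cos θ₀ - x 1) ^ 2 = X ^ 2 + Y ^ 2 := by
    linear_combination (X ^ 2 + Y ^ 2) * h
  rw [e]
  nlinarith [sq_abs X, sq_abs Y, mul_nonneg (abs_nonneg X) (abs_nonneg Y)]

/-- Frame coordinates of the point with parameter `t` on the `c`-th side line. -/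
def sideX (c : Fin 4) (σ ρ t : ℝ) : ℝ := ![ρ - σ * t, -ρ - σ * t, t, t] c

/-- Frame coordinates of the point with parameter `t` on the `c`-th side line. -/
def sideY (c : Fin 4) (σ ρ t : ℝ) : ℝ := ![t, t, ρ + σ * t, -ρ + σ * t] c

/-- The point with parameter `t` on the `c`-th side line. -/
noncomputable def sidePt (θ₀ : ℝ) (x : Plane) (c : Fin 4) (σ ρ t : ℝ) : Plane :=
  pt θ₀ x (sideX c σ ρ t) (sideY c σ ρ t)

theorem pt_mem_squareBoundary (θ₀ θ' : ℝ) (x : Plane) (r u v X Y : ℝ) (h : max |u| |v| = r)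
    (hX : X = u * Real.cos θ' - v * Real.sin θ') (hY : Y = u * Real.sin θ' + v * Real.cos θ') :
    pt θ₀ x X Y ∈ squareBoundary x r (θ₀ + θ') := by
  refine ⟨u, v, h, ?_, ?_⟩
  · rw [pt_zero, Real.cos_add, Real.sin_add, hX, hY]; ring
  · rw [pt_one, Real.cos_add, Real.sin_add, hX, hY]; ring

theorem sidePt_mem (θ₀ θ' : ℝ) (x : Plane) (r t : ℝ) (hr : 0 < r) (hθ : |θ'| ≤ 1 / 10)
    (ht : |t| ≤ r / 4) (c : Fin 4) :
    sidePt θ₀ x c (Real.sin θ' / Real.cos θ') (r / Real.cos θ') t ∈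
      squareBoundary x r (θ₀ + θ') := by
  have hs : |Real.sin θ'| ≤ 1 / 10 := (Real.abs_sin_le_abs).trans hθ
  have hc : 1 / 2 < Real.cos θ' := by
    have h1 := Real.one_sub_sq_div_two_le_cos (x := θ')
    have h2 : θ' ^ 2 ≤ 1 / 100 := by
      rw [← sq_abs]
      nlinarith [abs_nonneg θ']
    linarith
  have hcpos : 0 < Real.cos θ' := by linarith
  have hsc := Real.sin_sq_add_cos_sq θ'
  set s := Real.sin θ' with hs'
  set k := Real.cos θ' with hk'
  rw [abs_le] at hs ht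
  have b1 : |(t - r * s) / k| ≤ r := by
    rw [abs_div, abs_of_pos hcpos, div_le_iff₀ hcpos, abs_le]
    constructor <;> nlinarith [hs.1, hs.2, ht.1, ht.2]
  have b2 : |(t + r * s) / k| ≤ r := by
    rw [abs_div, abs_of_pos hcpos, div_le_iff₀ hcpos, abs_le]
    constructor <;> nlinarith [hs.1, hs.2, ht.1, ht.2]
  have hc4 : c = 0 ∨ c = 1 ∨ c = 2 ∨ c = 3 := by fin_cases c <;> simp
  rcases hc4 with rfl | rfl | rfl | rfl
  · refine pt_mem_squareBoundary θ₀ θ' x r r ((t - r * s) / k) _ _ ?_ ?_ ?_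
    · rw [abs_of_pos hr]; exact max_eq_left b1
    · change r / k - s / k * t = r * k - (t - r * s) / k * s
      field_simp
      linear_combination (-r) * hsc
    · change t = r * s + (t - r * s) / k * k
      field_simp
      ring
  · refine pt_mem_squareBoundary θ₀ θ' x r (-r) ((t + r * s) / k) _ _ ?_ ?_ ?_
    · rw [abs_neg, abs_of_pos hr]; exact max_eq_left b2
    · change -(r / k) - s / k * t = -r * k - (t + r * s) / k * s
      field_simp
      linear_combination r * hsc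
    · change t = -r * s + (t + r * s) / k * k
      field_simp
      ring
  · refine pt_mem_squareBoundary θ₀ θ' x r ((t + r * s) / k) r _ _ ?_ ?_ ?_
    · rw [abs_of_pos hr]; exact max_eq_right b2
    · change t = (t + r * s) / k * k - r * s
      field_simp
      ring
    · change r / k + s / k * t = (t + r * s) / k * s + r * k
      field_simp
      linear_combination (-r) * hsc
  · refine pt_mem_squareBoundary θ₀ θ' x r ((t - r * s) / k) (-r) _ _ ?_ ?_ ?_
    · rw [abs_neg, abs_of_pos hr]; exact max_eq_right b1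
    · change t = (t - r * s) / k * k - -r * s
      field_simp
      ring
    · change -(r / k) + s / k * t = (t - r * s) / k * s + -r * k
      field_simp
      linear_combination r * hsc

/-- Baire category on an open set. -/
theorem exists_interior_inter {X : Type*} [TopologicalSpace X] [BaireSpace X] {U : Set X}
    (hU : IsOpen U) (hne : U.Nonempty) {ι : Type*} [Countable ι] {F : ι → Set X}
    (hF : ∀ i, IsClosed (F i)) (hcov : U ⊆ ⋃ i, F i) : ∃ i, (interior (F i) ∩ U).Nonempty := by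
  classical
  set G : Option ι → Set X := fun o => match o with
    | none => Uᶜ
    | some i => F i with hG
  have hGc : ∀ o, IsClosed (G o) := by
    intro o
    cases o with
    | none => exact hU.isClosed_compl
    | some i => exact hF i
  have hGu : ⋃ o, G o = Set.univ := by
    rw [Set.eq_univ_iff_forall]
    intro z
    by_cases hz : z ∈ U
    · obtain ⟨i, hi⟩ := Set.mem_iUnion.mp (hcov hz)
      exact Set.mem_iUnion.mpr ⟨some i, hi⟩
    · exact Set.mem_iUnion.mpr ⟨none, hz⟩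
  have hd := dense_iUnion_interior_of_closed hGc hGu
  obtain ⟨z, hz1, hz2⟩ := hd.inter_open_nonempty U hU hne
  obtain ⟨o, ho⟩ := Set.mem_iUnion.mp hz2
  cases o with
  | none => exact absurd hz1 (interior_subset ho)
  | some i => exact ⟨i, z, ho, hz1⟩

theorem continuous_sidePt (θ₀ : ℝ) (c : Fin 4) (t : ℝ) :
    Continuous (fun z : Plane × ℝ × ℝ => sidePt θ₀ z.1 c z.2.1 z.2.2 t) := by
  have hX : Continuous (fun z : Plane × ℝ × ℝ => sideX c z.2.1 z.2.2 t) := by
    fin_cases c <;> simp only [sideX] <;> simp <;> fun_prop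
  have hY : Continuous (fun z : Plane × ℝ × ℝ => sideY c z.2.1 z.2.2 t) := by
    fin_cases c <;> simp only [sideY] <;> simp <;> fun_prop
  unfold sidePt pt
  refine (PiLp.continuous_toLp 2 _).comp ?_
  refine continuous_pi ?_
  intro i
  fin_cases i
  · simp only [Fin.zero_eta, Matrix.cons_val_zero]
    fun_prop
  · simp only [Fin.mk_one, Matrix.cons_val_one]
    fun_prop

end Pool.Agent.MP023cc8
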