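import Pool.Agent.Lib.MP_023cc8_an.Geometry

/-!
# The main counting theorem (MP_023cc8_an)
-/

namespace Pool.Agent.MP023cc8

open Finset Metric

variable {ι : Type*}

/-- Centres `x` for which the side lines with parameters `(σ, ρ)` in the frame of angle `q` have
their pieces `[α c, β c]` in `F (i c)`. -/
def piece (F : ι → Set Plane) (q : ℚ) (m : ℕ) (α β : Fin 4 → ℚ) (i : Fin 4 → ι) : Set Plane :=
  {x | ∃ σ ρ : ℝ, σ ∈ Set.Icc (-(1 / 4) : ℝ) (1 / 4) ∧ ρ ∈ Set.Icc (-(m : ℝ)) m ∧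
    ∀ c, ∀ t : ℝ, (α c : ℝ) ≤ t → t ≤ β c → sidePt q x c σ ρ t ∈ F (i c)}

theorem isClosed_piece {F : ι → Set Plane} (hF : ∀ i, IsClosed (F i)) (q : ℚ) (m : ℕ)
    (α β : Fin 4 → ℚ) (i : Fin 4 → ι) : IsClosed (piece F q m α β i) := by
  set Z : Set (Plane × ((Set.Icc (-(1 / 4) : ℝ) (1 / 4)) × (Set.Icc (-(m : ℝ)) m))) := {z | ∀ c, ∀ t : ℝ, (α c : ℝ) ≤ t → t ≤ β c →
    sidePt q z.1 c z.2.1 z.2.2 t ∈ F (i c)} with hZ
  have hZc : IsClosed Z := by
    have : Z = ⋂ c, ⋂ t : ℝ, ⋂ _ : (α c : ℝ) ≤ t, ⋂ _ : t ≤ β c,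
        {z : Plane × ((Set.Icc (-(1 / 4) : ℝ) (1 / 4)) × (Set.Icc (-(m : ℝ)) m)) | sidePt q z.1 c z.2.1 z.2.2 t ∈ F (i c)} := by
      ext z
      simp only [hZ, Set.mem_iInter, Set.mem_ofPred_eq]
    rw [this]
    refine isClosed_iInter fun c => isClosed_iInter fun t => isClosed_iInter fun _ =>
      isClosed_iInter fun _ => ?_
    refine (hF (i c)).preimage ?_
    have h1 : Continuous (fun z : Plane × ((Set.Icc (-(1 / 4) : ℝ) (1 / 4)) ×
        (Set.Icc (-(m : ℝ)) m)) => ((z.1, ((z.2.1 : ℝ), (z.2.2 : ℝ))) : Plane × ℝ × ℝ)) := by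
      fun_prop
    exact (continuous_sidePt q c t).comp h1
  have himg : piece F q m α β i = Prod.fst '' Z := by
    ext x
    constructor
    · rintro ⟨σ, ρ, hσ, hρ, h⟩
      exact ⟨(x, (⟨σ, hσ⟩, ⟨ρ, hρ⟩)), h, rfl⟩
    · rintro ⟨⟨x', ⟨σ, hσ⟩, ⟨ρ, hρ⟩⟩, h, rfl⟩
      exact ⟨σ, ρ, hσ, hρ, h⟩
  rw [himg]
  exact isClosedMap_fst_of_compactSpace _ hZc

theorem continuous_sidePt' (θ₀ : ℝ) (x : Plane) (c : Fin 4) (σ ρ : ℝ) :
    Continuous (fun t : ℝ => sidePt θ₀ x c σ ρ t) := by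
  have hX : Continuous (fun t : ℝ => sideX c σ ρ t) := by
    fin_cases c <;> simp only [sideX] <;> simp <;> fun_prop
  have hY : Continuous (fun t : ℝ => sideY c σ ρ t) := by
    fin_cases c <;> simp only [sideY] <;> simp <;> fun_prop
  unfold sidePt pt
  refine (PiLp.continuous_toLp 2 _).comp ?_
  refine continuous_pi ?_
  intro i
  fin_cases i
  · simp only [Fin.zero_eta, Matrix.cons_val_zero]
    fun_prop
  · simp only [Fin.mk_one, Matrix.cons_val_one]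
    fun_prop

/-- A one-dimensional Baire argument. -/
theorem exists_rat_interval [Countable ι] {G : ι → Set ℝ} (hG : ∀ i, IsClosed (G i)) {r : ℝ}
    (hr : 0 < r) (hcov : ∀ t : ℝ, |t| ≤ r → ∃ i, t ∈ G i) :
    ∃ (i : ι) (α β : ℚ), α < β ∧ ∀ t : ℝ, (α : ℝ) ≤ t → t ≤ β → t ∈ G i := by
  obtain ⟨i, z, hz, -⟩ := exists_interior_inter (U := Set.Ioo (-r) r) isOpen_Ioo
    ⟨0, by constructor <;> linarith⟩ hG (by
      intro t ht
      obtain ⟨i, hi⟩ := hcov t (abs_le.mpr ⟨ht.1.le, ht.2.le⟩)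
      exact Set.mem_iUnion.mpr ⟨i, hi⟩)
  obtain ⟨ε, hε, hball⟩ := Metric.isOpen_iff.mp isOpen_interior z hz
  obtain ⟨α, hα1, hα2⟩ := exists_rat_btwn (show z - ε < z by linarith)
  obtain ⟨β, hβ1, hβ2⟩ := exists_rat_btwn (show z < z + ε by linarith)
  refine ⟨i, α, β, ?_, ?_⟩
  · have : (α : ℝ) < β := by linarith
    exact_mod_cast this
  · intro t ht1 ht2
    refine interior_subset (hball ?_)
    rw [Metric.mem_ball, Real.dist_eq, abs_lt]
    constructor <;> linarith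

theorem exists_piece [Countable ι] {F : ι → Set Plane} (hF : ∀ i, IsClosed (F i)) {K : Set Plane}
    (hK : K ⊆ ⋃ i, F i) {x : Plane} {r θ : ℝ} (hr : 0 < r) (hx : squareBoundary x r θ ⊆ K) :
    ∃ (q : ℚ) (m : ℕ) (α β : Fin 4 → ℚ) (i : Fin 4 → ι), (∀ c, α c < β c) ∧
      x ∈ piece F q m α β i := by
  obtain ⟨q, hq⟩ := exists_rat_near θ (show (0 : ℝ) < 1 / 10 by norm_num)
  set θ' := θ - q with hθ'
  have hθ : θ = q + θ' := by rw [hθ']; ring
  rw [hθ] at hx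
  set σ := Real.sin θ' / Real.cos θ' with hσ
  set ρ := r / Real.cos θ' with hρ
  have hs : |Real.sin θ'| ≤ 1 / 10 := (Real.abs_sin_le_abs).trans hq.le
  have hc : 1 / 2 < Real.cos θ' := by
    have h1 := Real.one_sub_sq_div_two_le_cos (x := θ')
    have h2 : θ' ^ 2 ≤ 1 / 100 := by
      rw [← sq_abs]
      nlinarith [abs_nonneg θ']
    linarith
  have hcpos : 0 < Real.cos θ' := by linarith
  have hσb : |σ| ≤ 1 / 4 := by
    rw [hσ, abs_div, abs_of_pos hcpos, div_le_iff₀ hcpos]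
    linarith
  obtain ⟨m, hm⟩ := exists_nat_ge |ρ|
  have hside : ∀ c : Fin 4, ∃ (i : ι) (α β : ℚ), α < β ∧
      ∀ t : ℝ, (α : ℝ) ≤ t → t ≤ β → sidePt q x c σ ρ t ∈ F i := by
    intro c
    have := exists_rat_interval (G := fun i => {t : ℝ | sidePt q x c σ ρ t ∈ F i})
      (fun i => (hF i).preimage (continuous_sidePt' q x c σ ρ)) (r := r / 4) (by linarith)
      (by
        intro t ht
        have h1 := sidePt_mem q θ' x r t hr hq.le ht c
        obtain ⟨i, hi⟩ := Set.mem_iUnion.mp (hK (hx h1))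
        exact ⟨i, hi⟩)
    exact this
  choose i α β hαβ h using hside
  exact ⟨q, m, α, β, i, hαβ, σ, ρ, abs_le.mp hσb, abs_le.mp hm, h⟩

theorem exists_ball_piece [Countable ι] {F : ι → Set Plane} (hF : ∀ i, IsClosed (F i))
    {K : Set Plane} (hK : K ⊆ ⋃ i, F i) (hadm : Admissible K) :
    ∃ (q : ℚ) (m : ℕ) (α β : Fin 4 → ℚ) (i : Fin 4 → ι), (∀ c, α c < β c) ∧
      ∃ (x₀ : Plane) (η : ℝ), 0 < η ∧ Metric.ball x₀ η ⊆ piece F q m α β i := by
  set P := {p : ℚ × ℕ × (Fin 4 → ℚ) × (Fin 4 → ℚ) × (Fin 4 → ι) // ∀ c, p.2.2.1 c < p.2.2.2.1 c}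
    with hP
  set S : P → Set Plane := fun p => piece F p.1.1 p.1.2.1 p.1.2.2.1 p.1.2.2.2.1 p.1.2.2.2.2 with hS
  have hopen : IsOpen {x : Plane | ∀ i, x i ∈ Set.Ioo (0 : ℝ) 1} := by
    simp only [Set.ofPred_forall]
    refine isOpen_iInter_of_finite fun i => ?_
    exact isOpen_Ioo.preimage (by fun_prop)
  have hne : ({x : Plane | ∀ i, x i ∈ Set.Ioo (0 : ℝ) 1}).Nonempty := by
    refine ⟨!₂[1 / 2, 1 / 2], ?_⟩
    intro i
    fin_cases i
    · change (1 / 2 : ℝ) ∈ Set.Ioo (0 : ℝ) 1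
      constructor <;> norm_num
    · change (1 / 2 : ℝ) ∈ Set.Ioo (0 : ℝ) 1
      constructor <;> norm_num
  obtain ⟨p, x₀, hx₀, -⟩ := exists_interior_inter (F := S) hopen hne
    (fun p => isClosed_piece hF _ _ _ _ _) (by
      intro x hx
      obtain ⟨r, hr, θ, hxK⟩ := hadm x fun i => ⟨(hx i).1.le, (hx i).2.le⟩
      obtain ⟨q, m, α, β, i, hαβ, hmem⟩ := exists_piece hF hK hr hxK
      exact Set.mem_iUnion.mpr ⟨⟨(q, m, α, β, i), hαβ⟩, hmem⟩)
  obtain ⟨η, hη, hball⟩ := Metric.isOpen_iff.mp isOpen_interior x₀ hx₀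
  exact ⟨p.1.1, p.1.2.1, p.1.2.2.1, p.1.2.2.2.1, p.1.2.2.2.2, p.2, x₀, η, hη,
    hball.trans interior_subset⟩

/-- The height coordinate for the `c`-th side. -/
noncomputable def hgt (c : Fin 4) (θ₀ : ℝ) (x p : Plane) : ℝ :=
  ![fY θ₀ x p, fY θ₀ x p, fX θ₀ x p, fX θ₀ x p] c

/-- The value coordinate for the `c`-th side. -/
noncomputable def vlu (c : Fin 4) (θ₀ : ℝ) (x p : Plane) : ℝ :=
  ![fX θ₀ x p, fX θ₀ x p, fY θ₀ x p, fY θ₀ x p] c

theorem hgt_lip (c : Fin 4) (θ₀ : ℝ) (x p q : Plane) : |hgt c θ₀ x p - hgt c θ₀ x q| ≤ dist p q := by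
  fin_cases c
  · exact fY_lip θ₀ x p q
  · exact fY_lip θ₀ x p q
  · exact fX_lip θ₀ x p q
  · exact fX_lip θ₀ x p q

theorem vlu_lip (c : Fin 4) (θ₀ : ℝ) (x p q : Plane) : |vlu c θ₀ x p - vlu c θ₀ x q| ≤ dist p q := by
  fin_cases c
  · exact fX_lip θ₀ x p q
  · exact fX_lip θ₀ x p q
  · exact fY_lip θ₀ x p q
  · exact fY_lip θ₀ x p q

/-- The centre coordinate that shifts the height on the `c`-th side. -/
def cshift (c : Fin 4) (a b : ℝ) : ℝ := ![b, b, a, a] c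

theorem hgt_sidePt (c : Fin 4) (θ₀ : ℝ) (x : Plane) (a b σ ρ h : ℝ) :
    hgt c θ₀ x (sidePt θ₀ (pt θ₀ x a b) c σ ρ (h - cshift c a b)) = h := by
  fin_cases c
  · change fY θ₀ x (pt θ₀ (pt θ₀ x a b) _ (h - b)) = h
    rw [fY_pt]; ring
  · change fY θ₀ x (pt θ₀ (pt θ₀ x a b) _ (h - b)) = h
    rw [fY_pt]; ring
  · change fX θ₀ x (pt θ₀ (pt θ₀ x a b) (h - a) _) = h
    rw [fX_pt]; ring
  · change fX θ₀ x (pt θ₀ (pt θ₀ x a b) (h - a) _) = h
    rw [fX_pt]; ring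

theorem vlu_sidePt (c : Fin 4) (θ₀ : ℝ) (x : Plane) (a b σ ρ h : ℝ) :
    vlu c θ₀ x (sidePt θ₀ (pt θ₀ x a b) c σ ρ (h - cshift c a b)) =
      lpos c a b σ ρ + lslp c σ * h := by
  fin_cases c
  · change fX θ₀ x (pt θ₀ (pt θ₀ x a b) (ρ - σ * (h - b)) _) = (a + σ * b + ρ) + (-σ) * h
    rw [fX_pt]; ring
  · change fX θ₀ x (pt θ₀ (pt θ₀ x a b) (-ρ - σ * (h - b)) _) = (a + σ * b - ρ) + (-σ) * h
    rw [fX_pt]; ring
  · change fY θ₀ x (pt θ₀ (pt θ₀ x a b) _ (ρ + σ * (h - a))) = (b - σ * a + ρ) + σ * h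
    rw [fY_pt]; ring
  · change fY θ₀ x (pt θ₀ (pt θ₀ x a b) _ (-ρ + σ * (h - a))) = (b - σ * a - ρ) + σ * h
    rw [fY_pt]; ring

theorem exists_small (η : ℝ) (hη : 0 < η) (α β : Fin 4 → ℚ) (hαβ : ∀ c, α c < β c) :
    ∃ k : ℕ, 2 * (1 / (2 : ℝ) ^ k) < η ∧ ∀ c, 3 * (1 / (2 : ℝ) ^ k) ≤ (β c : ℝ) - α c := by
  have h : Filter.Tendsto (fun k : ℕ => 1 / (2 : ℝ) ^ k) Filter.atTop (nhds 0) := by
    simp only [one_div]
    exact tendsto_inv_atTop_zero.comp (tendsto_pow_atTop_atTop_of_one_lt one_lt_two)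
  have h1 : ∀ᶠ k : ℕ in Filter.atTop, 1 / (2 : ℝ) ^ k < η / 2 :=
    h.eventually (gt_mem_nhds (by linarith))
  have h2 : ∀ c, ∀ᶠ k : ℕ in Filter.atTop, 1 / (2 : ℝ) ^ k < ((β c : ℝ) - α c) / 3 := by
    intro c
    have : (α c : ℝ) < β c := by exact_mod_cast hαβ c
    exact h.eventually (gt_mem_nhds (by linarith))
  have h3 : ∀ᶠ k : ℕ in Filter.atTop, ∀ c, 1 / (2 : ℝ) ^ k < ((β c : ℝ) - α c) / 3 :=
    Filter.eventually_all.mpr h2
  obtain ⟨k, hk1, hk2⟩ := (h1.and h3).exists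
  refine ⟨k, by linarith, fun c => ?_⟩
  have := hk2 c
  linarith

/-- The main counting theorem. -/
theorem main_count [Countable ι] {F : ι → Set Plane} (hF : ∀ i, IsClosed (F i))
    {K : Set Plane} (hK : K ⊆ ⋃ i, F i) (hadm : Admissible K) :
    ∃ (i : Fin 4 → ι) (C : ℝ) (k : ℕ), 0 < C ∧ ∀ n ≥ k, ∀ N : Fin 4 → ℕ,
      (∀ c, CoveredBy (F (i c)) (1 / 2 ^ n) (N c)) →
        (2 : ℝ) ^ (7 * n) ≤ C * (n + 1) ^ 10 * ∏ c, (N c : ℝ) := by
  obtain ⟨q, m, α, β, i, hαβ, x₀, η, hη, hball⟩ := exists_ball_piece hF hK hadm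
  obtain ⟨k, hk1, hk2⟩ := exists_small η hη α β hαβ
  -- a bound for the heights
  obtain ⟨H, hH⟩ : ∃ H : ℕ, 1 ≤ H ∧ ∀ c, |(α c : ℝ)| ≤ H ∧ |(β c : ℝ)| ≤ H := by
    choose f hf using fun c => exists_nat_ge (|(α c : ℝ)| + |(β c : ℝ)|)
    refine ⟨1 + ∑ c, f c, by omega, fun c => ?_⟩
    have h1 : f c ≤ ∑ c, f c := Finset.single_le_sum (fun _ _ => Nat.zero_le _) (Finset.mem_univ c)
    have h2 : (f c : ℝ) ≤ ((∑ c, f c : ℕ) : ℝ) := Nat.cast_le.mpr h1
    have h3 := hf c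
    have h4 := abs_nonneg (α c : ℝ)
    have h5 := abs_nonneg (β c : ℝ)
    constructor
    · rw [Nat.cast_add, Nat.cast_one]; linarith
    · rw [Nat.cast_add, Nat.cast_one]; linarith
  refine ⟨i, constK H (2 ^ k) * 16, k, ?_, ?_⟩
  · unfold constK; positivity
  intro n hn N hN
  choose U hU hcov using hN
  set L : ℕ := 2 ^ (n - k) with hL
  have hLn : L * 2 ^ k = 2 ^ n := by rw [hL, ← pow_add]; congr 1; omega
  have hL' : (L : ℝ) / 2 ^ n = 1 / 2 ^ k := by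
    have : (L : ℝ) * 2 ^ k = 2 ^ n := by exact_mod_cast hLn
    rw [← this]
    have : (0 : ℝ) < L := by rw [hL]; positivity
    field_simp
  -- the parameters of the squares
  have hsq : ∀ ω ∈ grid L, ∃ σ ρ : ℝ, σ ∈ Set.Icc (-(1 / 4) : ℝ) (1 / 4) ∧
      ∀ c, ∀ t : ℝ, (α c : ℝ) ≤ t → t ≤ β c →
        sidePt q (pt q x₀ (gx n ω) (gy n ω)) c σ ρ t ∈ F (i c) := by
    intro ω hω
    have h1 : ω.1 < L := Finset.mem_range.mp (Finset.mem_product.mp hω).1
    have h2 : ω.2 < L := Finset.mem_range.mp (Finset.mem_product.mp hω).2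
    have h3 : gx n ω < 1 / 2 ^ k := by
      rw [← hL']; unfold gx
      exact div_lt_div_of_pos_right (by exact_mod_cast h1) (by positivity)
    have h4 : gy n ω < 1 / 2 ^ k := by
      rw [← hL']; unfold gy
      exact div_lt_div_of_pos_right (by exact_mod_cast h2) (by positivity)
    have h5 : 0 ≤ gx n ω := by unfold gx; positivity
    have h6 : 0 ≤ gy n ω := by unfold gy; positivity
    have h7 : pt q x₀ (gx n ω) (gy n ω) ∈ Metric.ball x₀ η := by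
      rw [Metric.mem_ball]
      refine (dist_pt_le _ _ _ _).trans_lt ?_
      rw [abs_of_nonneg h5, abs_of_nonneg h6]
      linarith
    obtain ⟨σ, ρ, hσ, -, h⟩ := hball h7
    exact ⟨σ, ρ, hσ, h⟩
  choose! σ ρ hσ hpts using hsq
  -- heights
  have hht : ∀ c, ∀ j < L, (α c : ℝ) + 1 / 2 ^ k ≤ height (α c + 1 / 2 ^ k) n j ∧
      height (α c + 1 / 2 ^ k) n j ≤ β c := by
    intro c j hj
    have h1 : 2 * (j : ℝ) / 2 ^ n ≤ 2 * (1 / 2 ^ k) := by
      rw [← hL', mul_div_assoc]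
      refine mul_le_mul_of_nonneg_left ?_ (by norm_num)
      exact div_le_div_of_nonneg_right (by exact_mod_cast hj.le) (by positivity)
    have h2 : 0 ≤ 2 * (j : ℝ) / 2 ^ n := by positivity
    have h3 := hk2 c
    unfold height
    constructor <;> linarith
  have hcore := core_estimate n H (2 ^ k) L L hH.1 (by
      rw [← hLn]; exact Nat.le_mul_of_pos_right _ (by positivity)) (by rw [mul_comm, hLn]) (by
      rw [← hLn]
      calc L = L * 1 := (mul_one L).symm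
        _ ≤ L * 2 ^ k := Nat.mul_le_mul_left _ Nat.one_le_two_pow
        _ = 1 * (L * 2 ^ k) := (one_mul _).symm
        _ ≤ (H + 1) * (L * 2 ^ k) := Nat.mul_le_mul_right _ (by omega)) (by rw [mul_comm, hLn])
    σ ρ (fun ω hω => abs_le.mpr (hσ ω hω)) (fun c => (α c : ℝ) + 1 / 2 ^ k)
    (by
      intro c j hj
      have h1 := hht c j hj
      have h2 := (hH.2 c).1
      have h3 := (hH.2 c).2
      rw [abs_le] at h2 h3 ⊢
      have h4 : (0 : ℝ) < 1 / 2 ^ k := by positivity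
      constructor
      · linarith [h1.1, h2.1]
      · linarith [h1.2, h3.2])
    (fun c => 2 * (N c : ℝ)) (by
      intro c
      have h := cover_slots (grid L) n L (N c) ((α c : ℝ) + 1 / 2 ^ k) (pos n σ ρ c) (slp σ c)
        (hgt c q x₀) (vlu c q x₀) (hgt_lip c q x₀) (vlu_lip c q x₀) (F (i c)) (U c) (hU c)
        (hcov c) (by
          intro ω hω j hj
          have h1 := hht c j hj
          have h4 : (0 : ℝ) ≤ cshift c (gx n ω) (gy n ω) ∧
              cshift c (gx n ω) (gy n ω) ≤ 1 / 2 ^ k := by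
            have h1 : ω.1 < L := Finset.mem_range.mp (Finset.mem_product.mp hω).1
            have h2 : ω.2 < L := Finset.mem_range.mp (Finset.mem_product.mp hω).2
            have h3 : gx n ω ≤ 1 / 2 ^ k := by
              rw [← hL']; unfold gx
              exact div_le_div_of_nonneg_right (by exact_mod_cast h1.le) (by positivity)
            have h4 : gy n ω ≤ 1 / 2 ^ k := by
              rw [← hL']; unfold gy
              exact div_le_div_of_nonneg_right (by exact_mod_cast h2.le) (by positivity)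
            have h5 : 0 ≤ gx n ω := by unfold gx; positivity
            have h6 : 0 ≤ gy n ω := by unfold gy; positivity
            fin_cases c
            · exact ⟨h6, h4⟩
            · exact ⟨h6, h4⟩
            · exact ⟨h5, h3⟩
            · exact ⟨h5, h3⟩
          refine ⟨sidePt q (pt q x₀ (gx n ω) (gy n ω)) c (σ ω) (ρ ω)
            (height ((α c : ℝ) + 1 / 2 ^ k) n j - cshift c (gx n ω) (gy n ω)), ?_, ?_, ?_⟩
          · exact hpts ω hω c _ (by linarith [h1.1, h4.2]) (by linarith [h1.2, h4.1])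
          · exact hgt_sidePt _ _ _ _ _ _ _ _
          · exact vlu_sidePt _ _ _ _ _ _ _ _)
      exact_mod_cast h)
  have hprod : ∏ c, (2 * (N c : ℝ)) = 16 * ∏ c, (N c : ℝ) := by
    rw [Finset.prod_mul_distrib, Finset.prod_const, Finset.card_univ, Fintype.card_fin]
    norm_num
  rw [hprod] at hcore
  calc (2 : ℝ) ^ (7 * n) ≤ constK H (2 ^ k) * (n + 1) ^ 10 * (16 * ∏ c, (N c : ℝ)) := hcore
    _ = _ := by ring

end Pool.Agent.MP023cc8
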