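import Mathlib

/-!
# Slices of families of lines (MP_023cc8_an)

A line is given by a position `a` and a slope `b`; its value at height `h` is `a + b h`.
At resolution `2^{-n}` we look at the heights `h_j = h₀ + 2 j 2^{-n}`, `j < J`.
-/

namespace Pool.Agent.MP023cc8

open Finset

/-- A finite set of integers with pairwise distances at most `R` has at most `R + 1` elements. -/
theorem card_le_of_close (S : Finset ℤ) (R : ℕ) (h : ∀ x ∈ S, ∀ y ∈ S, x - y ≤ R) :
    S.card ≤ R + 1 := by
  rcases S.eq_empty_or_nonempty with rfl | hne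
  · simp
  set m := S.min' hne with hm
  have hsub : S ⊆ Finset.Icc m (m + R) := by
    intro x hx
    rw [Finset.mem_Icc]
    refine ⟨Finset.min'_le S x hx, ?_⟩
    have := h x hx m (Finset.min'_mem S hne)
    omega
  calc S.card ≤ (Finset.Icc m (m + R)).card := Finset.card_le_card hsub
    _ = R + 1 := by rw [Int.card_Icc]; omega

/-- A finite set of natural numbers with pairwise distances at most `R` has at most `R + 1`
elements. -/
theorem card_le_of_close_nat (S : Finset ℕ) (R : ℕ) (h : ∀ x ∈ S, ∀ y ∈ S, x ≤ y + R) :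
    S.card ≤ R + 1 := by
  rcases S.eq_empty_or_nonempty with rfl | hne
  · simp
  set m := S.min' hne with hm
  have hsub : S ⊆ Finset.Icc m (m + R) := by
    intro x hx
    rw [Finset.mem_Icc]
    exact ⟨Finset.min'_le S x hx, h x hx m (Finset.min'_mem S hne)⟩
  calc S.card ≤ (Finset.Icc m (m + R)).card := Finset.card_le_card hsub
    _ = R + 1 := by rw [Nat.card_Icc]; omega

theorem floor_sub_le {x y : ℝ} {R : ℤ} (h : x - y ≤ R) : ⌊x⌋ - ⌊y⌋ ≤ R := by
  have h1 : (⌊x⌋ : ℝ) ≤ x := Int.floor_le x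
  have h2 : y < ⌊y⌋ + 1 := Int.lt_floor_add_one y
  have h3 : ((⌊x⌋ - ⌊y⌋ : ℤ) : ℝ) < ((R + 1 : ℤ) : ℝ) := by
    push_cast
    linarith
  have h4 : ⌊x⌋ - ⌊y⌋ < R + 1 := by exact_mod_cast h3
  omega

theorem abs_sub_lt_one_of_floor_eq {x y : ℝ} (h : ⌊x⌋ = ⌊y⌋) : |x - y| < 1 :=
  Int.abs_sub_lt_one_of_floor_eq_floor h

/-- The heights. -/
noncomputable def height (h₀ : ℝ) (n j : ℕ) : ℝ := h₀ + 2 * j / 2 ^ n

theorem height_sub (h₀ : ℝ) (n j j' : ℕ) :
    2 ^ n * (height h₀ n j - height h₀ n j') = 2 * ((j : ℝ) - j') := by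
  unfold height
  have : (2 : ℝ) ^ n ≠ 0 := by positivity
  field_simp
  ring

/-- If the values of two lines agree up to `2^{-n}` at all heights of a non-empty set `S`, then for
some scale `2^{-i}` the lines are `2^{-i}`-close and `S` has at most `(H+1) 2^i` elements. -/
theorem exists_scale (n H J : ℕ) (hH : 1 ≤ H) (h₀ A B : ℝ) (hB : |B| ≤ 1)
    (hh : ∀ j < J, |height h₀ n j| ≤ H) (hJ : J ≤ (H + 1) * 2 ^ n)
    (S : Finset ℕ) (hS : S ⊆ Finset.range J) (hne : S.Nonempty)
    (hAB : ∀ j ∈ S, |2 ^ n * (A + B * height h₀ n j)| < 1) :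
    ∃ i ≤ n, 2 ^ i * |B| ≤ 1 ∧ 2 ^ i * |A| ≤ H + 1 ∧ S.card ≤ (H + 1) * 2 ^ i := by
  classical
  set P : ℕ → Prop := fun i => 2 ^ i * |B| ≤ 1 with hP
  set i := Nat.findGreatest P n with hi
  have hP0 : P 0 := by simpa [hP] using hB
  have hPi : P i := Nat.findGreatest_spec (m := 0) (Nat.zero_le n) hP0
  have hin : i ≤ n := Nat.findGreatest_le n
  refine ⟨i, hin, hPi, ?_, ?_⟩
  · obtain ⟨j, hj⟩ := hne
    have h1 := hAB j hj
    have h2 := hh j (Finset.mem_range.mp (hS hj))
    rw [abs_mul, abs_of_pos (by positivity : (0 : ℝ) < 2 ^ n)] at h1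
    have h3 : (2 : ℝ) ^ i ≤ 2 ^ n := pow_le_pow_right₀ (by norm_num) hin
    have h4 : 2 ^ i * |A + B * height h₀ n j| ≤ 1 := by
      refine le_trans (mul_le_mul_of_nonneg_right h3 (abs_nonneg _)) h1.le
    have h5 : |A| ≤ |A + B * height h₀ n j| + |B| * |height h₀ n j| := by
      have : A = (A + B * height h₀ n j) - B * height h₀ n j := by ring
      calc |A| = |(A + B * height h₀ n j) - B * height h₀ n j| := by rw [← this]
        _ ≤ |A + B * height h₀ n j| + |B * height h₀ n j| := abs_sub _ _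
        _ = _ := by rw [abs_mul]
    have h6 : (2 : ℝ) ^ i * (|B| * |height h₀ n j|) ≤ H := by
      have : (2 : ℝ) ^ i * (|B| * |height h₀ n j|) = (2 ^ i * |B|) * |height h₀ n j| := by ring
      rw [this]
      calc (2 ^ i * |B|) * |height h₀ n j| ≤ 1 * H := by
            exact mul_le_mul hPi h2 (abs_nonneg _) (by norm_num)
        _ = H := one_mul _
    have h7 : (0 : ℝ) < 2 ^ i := by positivity
    calc 2 ^ i * |A| ≤ 2 ^ i * (|A + B * height h₀ n j| + |B| * |height h₀ n j|) :=
          mul_le_mul_of_nonneg_left h5 h7.le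
      _ = 2 ^ i * |A + B * height h₀ n j| + 2 ^ i * (|B| * |height h₀ n j|) := by ring
      _ ≤ 1 + H := add_le_add h4 h6
      _ = H + 1 := by ring
  · rcases hin.eq_or_lt with heq | hlt
    · rw [heq]
      calc S.card ≤ (Finset.range J).card := Finset.card_le_card hS
        _ = J := Finset.card_range J
        _ ≤ _ := hJ
    · have hnot : ¬ P (i + 1) :=
        Nat.findGreatest_is_greatest (P := P) (n := n) (k := i + 1) (Nat.lt_succ_self _) (by omega)
      simp only [hP, not_le] at hnot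
      have hBpos : 0 < |B| := by
        by_contra hcon
        have h0 : |B| = 0 := le_antisymm (not_lt.mp hcon) (abs_nonneg _)
        rw [h0] at hnot
        norm_num at hnot
      have hcard : S.card ≤ (2 ^ (i + 1) - 1) + 1 := by
        refine card_le_of_close_nat S _ ?_
        intro j hj j' hj'
        by_contra hcon
        push Not at hcon
        have hlt' : j' + 2 ^ (i + 1) ≤ j := by
          have : 1 ≤ 2 ^ (i + 1) := Nat.one_le_two_pow
          omega
        have h1 := abs_lt.mp (hAB j hj)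
        have h2 := abs_lt.mp (hAB j' hj')
        have h3 : |2 ^ n * (B * (height h₀ n j - height h₀ n j'))| < 2 := by
          rw [abs_lt]
          constructor
          · have : 2 ^ n * (B * (height h₀ n j - height h₀ n j')) =
              2 ^ n * (A + B * height h₀ n j) - 2 ^ n * (A + B * height h₀ n j') := by ring
            rw [this]; linarith [h1.1, h2.2]
          · have : 2 ^ n * (B * (height h₀ n j - height h₀ n j')) =
              2 ^ n * (A + B * height h₀ n j) - 2 ^ n * (A + B * height h₀ n j') := by ring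
            rw [this]; linarith [h1.2, h2.1]
        have h4 : 2 ^ n * (B * (height h₀ n j - height h₀ n j')) = B * (2 * ((j : ℝ) - j')) := by
          rw [← height_sub]; ring
        rw [h4, abs_mul, abs_mul, abs_two] at h3
        have h5 : (2 : ℝ) ^ (i + 1) ≤ |(j : ℝ) - j'| := by
          refine le_trans ?_ (le_abs_self _)
          have : ((j' + 2 ^ (i + 1) : ℕ) : ℝ) ≤ (j : ℝ) := by exact_mod_cast hlt'
          push_cast at this
          linarith
        have h6 : |B| * 2 ^ (i + 1) ≤ |B| * |(j : ℝ) - j'| :=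
          mul_le_mul_of_nonneg_left h5 hBpos.le
        nlinarith
      have h1 : 1 ≤ 2 ^ (i + 1) := Nat.one_le_two_pow
      calc S.card ≤ 2 ^ (i + 1) := by omega
        _ = 2 * 2 ^ i := by ring
        _ ≤ (H + 1) * 2 ^ i := Nat.mul_le_mul_right _ (by omega)

section

variable {α : Type*}

/-- Two lines are close at scale `2^{-i}`. -/
def Near (H : ℕ) (a b : α → ℝ) (i : ℕ) (ω ω' : α) : Prop :=
  2 ^ i * |b ω - b ω'| ≤ 1 ∧ 2 ^ i * |a ω - a ω'| ≤ H + 1

/-- The cell of the value of a line at the `j`-th height. -/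
noncomputable def slot (h₀ : ℝ) (n : ℕ) (a b : α → ℝ) (j : ℕ) (ω : α) : ℤ :=
  ⌊2 ^ n * (a ω + b ω * height h₀ n j)⌋

/-- The cell of a line at scale `2^{-i}`. -/
noncomputable def cell (a b : α → ℝ) (i : ℕ) (ω : α) : ℤ × ℤ :=
  (⌊2 ^ i * a ω⌋, ⌊2 ^ i * b ω⌋)

open Classical in
/-- The number of elements of `Ω` whose line is close to the line of `ω` at scale `2^{-i}`. -/
noncomputable def wt (Ω : Finset α) (H : ℕ) (a b : α → ℝ) (i : ℕ) (ω : α) : ℕ :=
  (Ω.filter (fun ω' => Near H a b i ω ω')).card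

open Classical in
/-- The number of heights at which two lines of `Ω` fall in the same slot. -/
theorem card_slots_le (Ω : Finset α) (n H J : ℕ) (hH : 1 ≤ H) (h₀ : ℝ) (a b : α → ℝ)
    (hb : ∀ ω ∈ Ω, |b ω| ≤ 1 / 2)
    (hh : ∀ j < J, |height h₀ n j| ≤ H) (hJ : J ≤ (H + 1) * 2 ^ n) (ω ω' : α)
    (hω : ω ∈ Ω) (hω' : ω' ∈ Ω) :
    ((Finset.range J).filter (fun j => slot h₀ n a b j ω = slot h₀ n a b j ω')).card ≤
      ∑ i ∈ Finset.range (n + 1), if Near H a b i ω ω' then (H + 1) * 2 ^ i else 0 := by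
  set S := (Finset.range J).filter (fun j => slot h₀ n a b j ω = slot h₀ n a b j ω') with hS
  rcases S.eq_empty_or_nonempty with he | hne
  · rw [he]; simp
  · have hB : |b ω - b ω'| ≤ 1 := by
      have h1 := hb ω hω
      have h2 := hb ω' hω'
      rw [abs_le] at h1 h2 ⊢
      constructor <;> linarith [h1.1, h1.2, h2.1, h2.2]
    obtain ⟨i, hin, h1, h2, h3⟩ := exists_scale n H J hH h₀ (a ω - a ω') (b ω - b ω') hB hh hJ S
      (Finset.filter_subset _ _) hne (by
        intro j hj
        have h := abs_sub_lt_one_of_floor_eq (Finset.mem_filter.mp hj).2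
        have e : (2 : ℝ) ^ n * (a ω - a ω' + (b ω - b ω') * height h₀ n j) =
          2 ^ n * (a ω + b ω * height h₀ n j) - 2 ^ n * (a ω' + b ω' * height h₀ n j) := by ring
        rw [e]
        exact h)
    refine h3.trans ?_
    have hmem : i ∈ Finset.range (n + 1) := Finset.mem_range.mpr (by omega)
    have hN : Near H a b i ω ω' := ⟨h1, h2⟩
    have := Finset.single_le_sum (f := fun i => if Near H a b i ω ω' then (H + 1) * 2 ^ i else 0)
      (fun _ _ => Nat.zero_le _) hmem
    simpa [hN] using this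

/-- Cauchy-Schwarz: the square of the size of a set is at most the number of slots times the number
of collisions. -/
theorem card_sq_le_slots {β : Type*} [DecidableEq β] (Ω' : Finset α) (f : α → β) :
    (Ω'.card : ℝ) ^ 2 ≤ ((Ω'.image f).card : ℝ) *
      ∑ ω ∈ Ω', ((Ω'.filter (fun ω' => f ω' = f ω)).card : ℝ) := by
  have h1 : (Ω'.card : ℝ) = ∑ k ∈ Ω'.image f, ((Ω'.filter (fun ω' => f ω' = k)).card : ℝ) := by
    rw [Finset.card_eq_sum_card_image f Ω']
    push_cast
    rfl
  have h2 : ∑ ω ∈ Ω', ((Ω'.filter (fun ω' => f ω' = f ω)).card : ℝ) =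
      ∑ k ∈ Ω'.image f, ((Ω'.filter (fun ω' => f ω' = k)).card : ℝ) ^ 2 := by
    rw [Finset.sum_comp (fun k => ((Ω'.filter (fun ω' => f ω' = k)).card : ℝ)) f]
    refine Finset.sum_congr rfl fun k _ => ?_
    rw [nsmul_eq_mul, sq]
  rw [h2, h1]
  exact sq_sum_le_card_mul_sum_sq

open Classical in
/-- The slice estimate: a set `Ω'` of lines without heavy cells has large slices. -/
theorem slice_estimate (Ω Ω' : Finset α) (hsub : Ω' ⊆ Ω) (n H J : ℕ) (hH : 1 ≤ H) (h₀ : ℝ)
    (a b : α → ℝ) (hb : ∀ ω ∈ Ω, |b ω| ≤ 1 / 2)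
    (hh : ∀ j < J, |height h₀ n j| ≤ H) (hJ : J ≤ (H + 1) * 2 ^ n) (φ : ℝ) (hφ0 : 0 ≤ φ)
    (hφ : ∀ ω ∈ Ω', ∀ i ≤ n, 2 ^ i * (wt Ω H a b i ω : ℝ) ≤ φ) :
    (J : ℝ) ^ 2 * Ω'.card ≤
      (∑ j ∈ Finset.range J, ((Ω.image (slot h₀ n a b j)).card : ℝ)) *
        ((n + 1) * ((H + 1) * φ)) := by
  rcases Ω'.eq_empty_or_nonempty with rfl | hne
  · simp only [Finset.card_empty, Nat.cast_zero, mul_zero]
    exact mul_nonneg (Finset.sum_nonneg fun _ _ => Nat.cast_nonneg _) (by positivity)
  · set D : ℕ → ℝ := fun j => ((Ω'.image (slot h₀ n a b j)).card : ℝ) with hD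
    set E : ℕ → ℝ := fun j =>
      ∑ ω ∈ Ω', ((Ω'.filter (fun ω' => slot h₀ n a b j ω' = slot h₀ n a b j ω)).card : ℝ) with hE
    have hD0 : ∀ j, 0 ≤ D j := fun j => Nat.cast_nonneg _
    have hE0 : ∀ j, 0 ≤ E j := fun j => Finset.sum_nonneg fun _ _ => Nat.cast_nonneg _
    have h1 : ∀ j, (Ω'.card : ℝ) ≤ Real.sqrt (D j) * Real.sqrt (E j) := by
      intro j
      rw [← Real.sqrt_mul (hD0 j)]
      exact Real.le_sqrt_of_sq_le (card_sq_le_slots Ω' (slot h₀ n a b j))
    have h2 : (J : ℝ) * Ω'.card ≤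
        ∑ j ∈ Finset.range J, Real.sqrt (D j) * Real.sqrt (E j) := by
      calc (J : ℝ) * Ω'.card = ∑ _j ∈ Finset.range J, (Ω'.card : ℝ) := by
            rw [Finset.sum_const, Finset.card_range, nsmul_eq_mul]
        _ ≤ _ := Finset.sum_le_sum fun j _ => h1 j
    have h3 : ((J : ℝ) * Ω'.card) ^ 2 ≤
        (∑ j ∈ Finset.range J, D j) * (∑ j ∈ Finset.range J, E j) := by
      refine (pow_le_pow_left₀ (by positivity) h2 2).trans ?_
      have h := Finset.sum_mul_sq_le_sq_mul_sq (Finset.range J) (fun j => Real.sqrt (D j))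
        (fun j => Real.sqrt (E j))
      simp only [Real.sq_sqrt (hD0 _), Real.sq_sqrt (hE0 _)] at h
      exact h
    have h4 : ∑ j ∈ Finset.range J, D j ≤
        ∑ j ∈ Finset.range J, ((Ω.image (slot h₀ n a b j)).card : ℝ) := by
      refine Finset.sum_le_sum fun j _ => ?_
      have : (Ω'.image (slot h₀ n a b j)).card ≤ (Ω.image (slot h₀ n a b j)).card :=
        Finset.card_le_card (Finset.image_subset_image hsub)
      exact Nat.cast_le.mpr this
    have h5 : ∑ j ∈ Finset.range J, E j ≤ Ω'.card * ((n + 1) * ((H + 1) * φ)) := by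
      have e1 : ∑ j ∈ Finset.range J, E j = ∑ ω ∈ Ω', ∑ ω' ∈ Ω',
          (((Finset.range J).filter
            (fun j => slot h₀ n a b j ω = slot h₀ n a b j ω')).card : ℝ) := by
        simp only [hE]
        rw [Finset.sum_comm]
        refine Finset.sum_congr rfl fun ω _ => ?_
        have e2 : ∀ j, ((Ω'.filter
            (fun ω' => slot h₀ n a b j ω' = slot h₀ n a b j ω)).card : ℝ) =
            ∑ ω' ∈ Ω', if slot h₀ n a b j ω = slot h₀ n a b j ω' then (1 : ℝ) else 0 := by
          intro j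
          rw [Finset.card_filter]
          push_cast
          refine Finset.sum_congr rfl fun ω' _ => ?_
          by_cases h : slot h₀ n a b j ω = slot h₀ n a b j ω'
          · rw [if_pos h, if_pos h.symm]
          · rw [if_neg h, if_neg (fun h' => h h'.symm)]
        simp only [e2]
        rw [Finset.sum_comm]
        refine Finset.sum_congr rfl fun ω' _ => ?_
        rw [Finset.card_filter]
        push_cast
        rfl
      rw [e1]
      have e3 : ∀ ω ∈ Ω', ∑ ω' ∈ Ω', (((Finset.range J).filter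
            (fun j => slot h₀ n a b j ω = slot h₀ n a b j ω')).card : ℝ) ≤
            (n + 1) * ((H + 1) * φ) := by
        intro ω hω
        have e4 : ∑ ω' ∈ Ω', (((Finset.range J).filter
            (fun j => slot h₀ n a b j ω = slot h₀ n a b j ω')).card : ℝ) ≤
            ∑ ω' ∈ Ω', ∑ i ∈ Finset.range (n + 1),
              if Near H a b i ω ω' then ((H : ℝ) + 1) * 2 ^ i else 0 := by
          refine Finset.sum_le_sum fun ω' hω' => ?_
          have h := card_slots_le Ω n H J hH h₀ a b hb hh hJ ω ω' (hsub hω) (hsub hω')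
          have h' : (((Finset.range J).filter
            (fun j => slot h₀ n a b j ω = slot h₀ n a b j ω')).card : ℝ) ≤
            ((∑ i ∈ Finset.range (n + 1),
              if Near H a b i ω ω' then (H + 1) * 2 ^ i else 0 : ℕ) : ℝ) := Nat.cast_le.mpr h
          refine h'.trans (le_of_eq ?_)
          push_cast
          rfl
        refine e4.trans ?_
        rw [Finset.sum_comm]
        have e5 : ∀ i ∈ Finset.range (n + 1), (∑ ω' ∈ Ω',
              if Near H a b i ω ω' then ((H : ℝ) + 1) * 2 ^ i else 0) ≤ (H + 1) * φ := by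
          intro i hi
          have e6 : (∑ ω' ∈ Ω', if Near H a b i ω ω' then ((H : ℝ) + 1) * 2 ^ i else 0) ≤
              ∑ ω' ∈ Ω, if Near H a b i ω ω' then ((H : ℝ) + 1) * 2 ^ i else 0 := by
            refine Finset.sum_le_sum_of_subset_of_nonneg hsub fun _ _ _ => ?_
            split_ifs
            · positivity
            · exact le_rfl
          refine e6.trans ?_
          rw [← Finset.sum_filter, Finset.sum_const, nsmul_eq_mul]
          have e7 := hφ ω hω i (by rw [Finset.mem_range] at hi; omega)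
          have e8 : ((Ω.filter (fun ω' => Near H a b i ω ω')).card : ℝ) * ((H + 1) * 2 ^ i) =
              (H + 1) * (2 ^ i * (wt Ω H a b i ω : ℝ)) := by
            unfold wt
            ring
          rw [e8]
          exact mul_le_mul_of_nonneg_left e7 (by positivity)
        refine (Finset.sum_le_sum e5).trans (le_of_eq ?_)
        rw [Finset.sum_const, Finset.card_range, nsmul_eq_mul]
        push_cast
        ring
      refine (Finset.sum_le_sum e3).trans (le_of_eq ?_)
      rw [Finset.sum_const, nsmul_eq_mul]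
    have hpos : (0 : ℝ) < Ω'.card := Nat.cast_pos.mpr (Finset.card_pos.mpr hne)
    have h6 : ((J : ℝ) ^ 2 * Ω'.card) * Ω'.card ≤
        ((∑ j ∈ Finset.range J, ((Ω.image (slot h₀ n a b j)).card : ℝ)) *
        ((n + 1) * ((H + 1) * φ))) * Ω'.card := by
      calc ((J : ℝ) ^ 2 * Ω'.card) * Ω'.card = ((J : ℝ) * Ω'.card) ^ 2 := by ring
        _ ≤ (∑ j ∈ Finset.range J, D j) * (∑ j ∈ Finset.range J, E j) := h3
        _ ≤ (∑ j ∈ Finset.range J, ((Ω.image (slot h₀ n a b j)).card : ℝ)) *
            (Ω'.card * ((n + 1) * ((H + 1) * φ))) :=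
            mul_le_mul h4 h5 (Finset.sum_nonneg fun j _ => hE0 j)
              (Finset.sum_nonneg fun _ _ => Nat.cast_nonneg _)
        _ = _ := by ring
    exact le_of_mul_le_mul_right h6 hpos

open Classical in
/-- If all elements of `Ω''` have a heavy cell at scale `2^{-i}`, then `Ω''` meets few cells. -/
theorem cells_estimate (Ω Ω'' : Finset α) (hsub : Ω'' ⊆ Ω) (H : ℕ) (a b : α → ℝ) (i : ℕ) (φ : ℝ)
    (hφ : ∀ ω ∈ Ω'', φ ≤ 2 ^ i * (wt Ω H a b i ω : ℝ)) :
    ((Ω''.image (cell a b i)).card : ℝ) * φ ≤ (3 * (2 * H + 3)) * (Ω.card * 2 ^ i) := by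
  rcases Ω''.eq_empty_or_nonempty with rfl | hne
  · simp only [Finset.image_empty, Finset.card_empty, Nat.cast_zero, zero_mul]
    positivity
  have : Nonempty α := ⟨hne.choose⟩
  -- choose representatives
  have hrep : ∀ c ∈ Ω''.image (cell a b i), ∃ ω ∈ Ω'', cell a b i ω = c := fun c hc =>
    Finset.mem_image.mp hc
  choose! r hr hrc using hrep
  have h1 : ((Ω''.image (cell a b i)).card : ℝ) * φ ≤
      ∑ c ∈ Ω''.image (cell a b i), 2 ^ i * (wt Ω H a b i (r c) : ℝ) := by
    rw [← nsmul_eq_mul, ← Finset.sum_const]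
    exact Finset.sum_le_sum fun c hc => hφ _ (hr c hc)
  refine h1.trans ?_
  have h2 : ∑ c ∈ Ω''.image (cell a b i), (wt Ω H a b i (r c)) ≤ (3 * (2 * H + 3)) * Ω.card := by
    have e1 : ∑ c ∈ Ω''.image (cell a b i), (wt Ω H a b i (r c)) =
        ∑ ω' ∈ Ω, ((Ω''.image (cell a b i)).filter (fun c => Near H a b i (r c) ω')).card := by
      unfold wt
      simp only [Finset.card_filter]
      rw [Finset.sum_comm]
    rw [e1]
    have e2 : ∀ ω' ∈ Ω, ((Ω''.image (cell a b i)).filter
        (fun c => Near H a b i (r c) ω')).card ≤ 3 * (2 * H + 3) := by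
      intro ω' _
      set q := cell a b i ω' with hq
      have e3 : (Ω''.image (cell a b i)).filter (fun c => Near H a b i (r c) ω') ⊆
          Finset.Icc (q.1 - (H + 1)) (q.1 + (H + 1)) ×ˢ Finset.Icc (q.2 - 1) (q.2 + 1) := by
        intro c hc
        rw [Finset.mem_filter] at hc
        obtain ⟨hc1, hN1, hN2⟩ := hc
        have hcc := hrc c hc1
        rw [Finset.mem_product, Finset.mem_Icc, Finset.mem_Icc]
        have p1 : |2 ^ i * a (r c) - 2 ^ i * a ω'| ≤ H + 1 := by
          rw [← mul_sub, abs_mul, abs_of_pos (by positivity : (0 : ℝ) < 2 ^ i)]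
          exact hN2
        have p2 : |2 ^ i * b (r c) - 2 ^ i * b ω'| ≤ 1 := by
          rw [← mul_sub, abs_mul, abs_of_pos (by positivity : (0 : ℝ) < 2 ^ i)]
          exact hN1
        rw [abs_le] at p1 p2
        have f1 : ⌊2 ^ i * a (r c)⌋ - ⌊2 ^ i * a ω'⌋ ≤ ((H + 1 : ℕ) : ℤ) := by
          apply floor_sub_le
          push_cast
          linarith [p1.2]
        have f2 : ⌊2 ^ i * a ω'⌋ - ⌊2 ^ i * a (r c)⌋ ≤ ((H + 1 : ℕ) : ℤ) := by
          apply floor_sub_le
          push_cast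
          linarith [p1.1]
        have f3 : ⌊2 ^ i * b (r c)⌋ - ⌊2 ^ i * b ω'⌋ ≤ 1 := by
          apply floor_sub_le
          push_cast
          linarith [p2.2]
        have f4 : ⌊2 ^ i * b ω'⌋ - ⌊2 ^ i * b (r c)⌋ ≤ 1 := by
          apply floor_sub_le
          push_cast
          linarith [p2.1]
        have g1 : c.1 = ⌊2 ^ i * a (r c)⌋ := (congrArg Prod.fst hcc).symm
        have g2 : c.2 = ⌊2 ^ i * b (r c)⌋ := (congrArg Prod.snd hcc).symm
        have g3 : q.1 = ⌊2 ^ i * a ω'⌋ := rfl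
        have g4 : q.2 = ⌊2 ^ i * b ω'⌋ := rfl
        push_cast at f1 f2
        rw [g1, g2, g3, g4]
        refine ⟨⟨by linarith, by linarith⟩, ⟨by linarith, by linarith⟩⟩
      refine (Finset.card_le_card e3).trans ?_
      rw [Finset.card_product, Int.card_Icc, Int.card_Icc]
      have n1 : (q.1 + ((H : ℤ) + 1) + 1 - (q.1 - ((H : ℤ) + 1))).toNat = 2 * H + 3 := by
        have : q.1 + ((H : ℤ) + 1) + 1 - (q.1 - ((H : ℤ) + 1)) = ((2 * H + 3 : ℕ) : ℤ) := by
          push_cast; ring
        rw [this, Int.toNat_natCast]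
      have n2 : (q.2 + 1 + 1 - (q.2 - 1)).toNat = 3 := by
        have : q.2 + 1 + 1 - (q.2 - 1) = ((3 : ℕ) : ℤ) := by push_cast; ring
        rw [this, Int.toNat_natCast]
      rw [n1, n2]
      exact le_of_eq (by ring)
    calc _ ≤ ∑ _ω' ∈ Ω, 3 * (2 * H + 3) := Finset.sum_le_sum e2
      _ = _ := by rw [Finset.sum_const, smul_eq_mul]; ring
  rw [← Finset.mul_sum]
  have h3 : (∑ c ∈ Ω''.image (cell a b i), (wt Ω H a b i (r c) : ℝ)) ≤
      (3 * (2 * H + 3)) * Ω.card := by exact_mod_cast h2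
  calc 2 ^ i * (∑ c ∈ Ω''.image (cell a b i), (wt Ω H a b i (r c) : ℝ))
      ≤ 2 ^ i * ((3 * (2 * H + 3)) * Ω.card) := mul_le_mul_of_nonneg_left h3 (by positivity)
    _ = _ := by ring

end

end Pool.Agent.MP023cc8
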